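import Mathlib

open Finset
open scoped symmDiff

namespace Pool.Agent.MP_221c76_co

open Classical in
/-- multiplicity of `v` as an end -/
noncomputable def inc {V : Type*} (z : Sym2 V) (v : V) : ℕ :=
  Sym2.lift ⟨fun a b => (if a = v then 1 else 0) + (if b = v then 1 else 0),
    fun _ _ => add_comm _ _⟩ z

section inc
variable {V W : Type*}

open Classical in
lemma inc_mk (a b v : V) :
    inc s(a, b) v = (if a = v then 1 else 0) + (if b = v then 1 else 0) := rfl

lemma inc_ne_zero_iff (z : Sym2 V) (v : V) : inc z v ≠ 0 ↔ v ∈ z := by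
  induction z using Sym2.ind with
  | _ a b =>
    rw [inc_mk, Sym2.mem_iff]
    by_cases ha : a = v <;> by_cases hb : b = v <;> simp [ha, hb, @eq_comm _ v]

lemma inc_eq_zero_iff (z : Sym2 V) (v : V) : inc z v = 0 ↔ v ∉ z := by
  rw [← inc_ne_zero_iff]; simp

lemma inc_map {φ : V → W} (hφ : Function.Injective φ) (z : Sym2 V) (v : V) :
    inc (z.map φ) (φ v) = inc z v := by
  induction z using Sym2.ind with
  | _ a b =>
    have h : ∀ x y, φ x = φ y ↔ x = y := fun x y => hφ.eq_iff
    rw [Sym2.map_mk, inc_mk, inc_mk]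
    by_cases ha : a = v <;> by_cases hb : b = v <;> simp [ha, hb, h]

lemma inc_map_of_notMem {φ : V → W} (z : Sym2 V) {w : W} (hw : w ∉ Set.range φ) :
    inc (z.map φ) w = 0 := by
  rw [inc_eq_zero_iff, Sym2.mem_map]
  rintro ⟨a, -, rfl⟩
  exact hw ⟨a, rfl⟩

lemma sum_inc (z : Sym2 V) (S : Finset V) (hS : ∀ v ∈ z, v ∈ S) : ∑ v ∈ S, inc z v = 2 := by
  classical
  induction z using Sym2.ind with
  | _ a b =>
    have ha : a ∈ S := hS a (by simp)
    have hb : b ∈ S := hS b (by simp)
    simp only [inc_mk, Finset.sum_add_distrib]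
    rw [Finset.sum_ite_eq, Finset.sum_ite_eq]
    simp [ha, hb]

end inc

variable {V E : Type*} (ends : E → Sym2 V)

/-- degree of `v` in the finite edge set `X` -/
noncomputable def deg (X : Finset E) (v : V) : ℕ := ∑ e ∈ X, inc (ends e) v

/-- all degrees even -/
def IsEven (X : Finset E) : Prop := ∀ v, Even (deg ends X v)

open Classical in
/-- the number of even subsets -/
noncomputable def nu (F : Finset E) : ℕ := (F.powerset.filter (IsEven ends)).card

/-- every edge lies in an even subset -/
def Bridgeless (F : Finset E) : Prop := ∀ e ∈ F, ∃ X ⊆ F, IsEven ends X ∧ e ∈ X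

/-- no common vertex -/
def VDisj (F T : Finset E) : Prop := ∀ v, deg ends F v = 0 ∨ deg ends T v = 0

variable {ends}

lemma deg_eq_zero_iff {X : Finset E} {v : V} : deg ends X v = 0 ↔ ∀ e ∈ X, v ∉ ends e := by
  simp [deg, inc_eq_zero_iff]

lemma deg_ne_zero_iff {X : Finset E} {v : V} : deg ends X v ≠ 0 ↔ ∃ e ∈ X, v ∈ ends e := by
  rw [Ne, deg_eq_zero_iff]; push Not; rfl

@[simp] lemma deg_empty (v : V) : deg ends ∅ v = 0 := by simp [deg]

@[simp] lemma deg_singleton (e : E) (v : V) : deg ends {e} v = inc (ends e) v := by simp [deg]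

lemma deg_mono {X Y : Finset E} (h : X ⊆ Y) (v : V) : deg ends X v ≤ deg ends Y v :=
  Finset.sum_le_sum_of_subset h

lemma deg_union [DecidableEq E] {X Y : Finset E} (h : Disjoint X Y) (v : V) :
    deg ends (X ∪ Y) v = deg ends X v + deg ends Y v := Finset.sum_union h

lemma deg_inter_add_sdiff [DecidableEq E] (X Y : Finset E) (v : V) :
    deg ends (X ∩ Y) v + deg ends (X \ Y) v = deg ends X v :=
  Finset.sum_inter_add_sum_sdiff X Y _

lemma isEven_empty : IsEven ends (∅ : Finset E) := fun v => by simp

lemma IsEven.symmDiff [DecidableEq E] {X Y : Finset E} (hX : IsEven ends X) (hY : IsEven ends Y) :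
    IsEven ends (X ∆ Y) := by
  intro v
  have h1 := deg_inter_add_sdiff (ends := ends) X Y v
  have h2 := deg_inter_add_sdiff (ends := ends) Y X v
  have h3 : deg ends (X ∆ Y) v = deg ends (X \ Y) v + deg ends (Y \ X) v := by
    rw [← deg_union disjoint_sdiff_sdiff]; rfl
  rw [Finset.inter_comm] at h2
  obtain ⟨a, ha⟩ := hX v
  obtain ⟨b, hb⟩ := hY v
  rw [Nat.even_iff]
  omega

lemma VDisj.symm {F T : Finset E} (h : VDisj ends F T) : VDisj ends T F := fun v => (h v).symm

lemma VDisj.mono {F T F' T' : Finset E} (h : VDisj ends F T) (hF : F' ⊆ F) (hT : T' ⊆ T) :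
    VDisj ends F' T' := fun v => by
  have h1 := deg_mono (ends := ends) hF v
  have h2 := deg_mono (ends := ends) hT v
  rcases h v with h | h
  · left; omega
  · right; omega

lemma vdisj_iff {F T : Finset E} :
    VDisj ends F T ↔ ∀ e ∈ F, ∀ f ∈ T, ∀ v, v ∈ ends e → v ∉ ends f := by
  constructor
  · intro h e he f hf v hv hv'
    rcases h v with h | h
    · exact deg_eq_zero_iff.1 h e he hv
    · exact deg_eq_zero_iff.1 h f hf hv'
  · intro h v
    by_contra hc
    push Not at hc
    obtain ⟨e, he, hv⟩ := deg_ne_zero_iff.1 hc.1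
    obtain ⟨f, hf, hv'⟩ := deg_ne_zero_iff.1 hc.2
    exact h e he f hf v hv hv'

lemma exists_mem_ends (e : E) : ∃ v, v ∈ ends e := ⟨(ends e).out.1, Sym2.out_fst_mem _⟩

lemma VDisj.disjoint {F T : Finset E} (h : VDisj ends F T) : Disjoint F T := by
  rw [Finset.disjoint_left]
  intro e he he'
  obtain ⟨v, hv⟩ := exists_mem_ends (ends := ends) e
  exact vdisj_iff.1 h e he e he' v hv hv

lemma VDisj.union_left [DecidableEq E] {F F' T : Finset E} (h : VDisj ends F T)
    (h' : VDisj ends F' T) : VDisj ends (F ∪ F') T := by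
  rw [vdisj_iff] at *
  intro e he
  rcases Finset.mem_union.1 he with he | he
  · exact h e he
  · exact h' e he

/-- handshake: evenness at all vertices but one gives evenness everywhere -/
lemma isEven_of_forall_ne {X : Finset E} (w : V) (h : ∀ v, v ≠ w → Even (deg ends X v)) :
    IsEven ends X := by
  classical
  suffices hw : Even (deg ends X w) by
    intro v
    by_cases hv : v = w
    · rw [hv]; exact hw
    · exact h v hv
  let S : Finset V := insert w (X.biUnion fun e => (ends e).toFinset)
  have hsum : ∑ v ∈ S, deg ends X v = 2 * X.card := by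
    unfold deg
    rw [Finset.sum_comm]
    rw [Finset.sum_congr rfl (g := fun _ => 2)]
    · simp [mul_comm]
    · intro e he
      apply sum_inc
      intro v hv
      exact Finset.mem_insert_of_mem (Finset.mem_biUnion.2 ⟨e, he, by simpa using hv⟩)
  have hw : w ∈ S := Finset.mem_insert_self _ _
  rw [← Finset.add_sum_erase S _ hw] at hsum
  have h2 : Even (∑ v ∈ S.erase w, deg ends X v) :=
    Finset.even_sum _ fun v hv => h v (Finset.ne_of_mem_erase hv)
  rw [Nat.even_iff] at h2 ⊢
  omega

/-- restriction of an even set to a union of components is even -/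
lemma IsEven.filter {X : Finset E} (hX : IsEven ends X) (p : E → Prop) [DecidablePred p]
    (hp : ∀ e ∈ X, ∀ f ∈ X, ∀ v, v ∈ ends e → v ∈ ends f → p e → p f) :
    IsEven ends (X.filter p) := by
  intro v
  by_cases h0 : deg ends (X.filter p) v = 0
  · rw [h0]; exact Even.zero
  · obtain ⟨e, he, hv⟩ := deg_ne_zero_iff.1 h0
    rw [Finset.mem_filter] at he
    have h1 : deg ends (X.filter fun e => ¬ p e) v = 0 := by
      rw [deg_eq_zero_iff]
      intro f hf hv'
      rw [Finset.mem_filter] at hf
      exact hf.2 (hp e he.1 f hf.1 v hv hv' he.2)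
    have h2 : deg ends (X.filter p) v + deg ends (X.filter fun e => ¬ p e) v = deg ends X v :=
      Finset.sum_filter_add_sum_filter_not X p _
    rw [h1, add_zero] at h2
    rw [h2]; exact hX v

lemma nu_pos (F : Finset E) : 0 < nu ends F := by
  classical
  unfold nu
  rw [Finset.card_pos]
  exact ⟨∅, by simp [isEven_empty]⟩

lemma nu_mono {F F' : Finset E} (h : F ⊆ F') : nu ends F ≤ nu ends F' := by
  classical
  unfold nu
  apply Finset.card_le_card
  intro X hX
  simp only [Finset.mem_filter, Finset.mem_powerset] at hX ⊢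
  exact ⟨hX.1.trans h, hX.2⟩

lemma nu_empty : nu ends (∅ : Finset E) = 1 := by
  classical
  unfold nu
  rw [Finset.powerset_empty, Finset.filter_singleton]
  simp [isEven_empty]

lemma nu_erase_of_mem [DecidableEq E] {F X : Finset E} {e : E} (hXF : X ⊆ F) (hX : IsEven ends X)
    (he : e ∈ X) : nu ends F = 2 * nu ends (F.erase e) := by
  classical
  unfold nu
  have h1 := Finset.card_filter_add_card_filter_not (s := F.powerset.filter (IsEven ends))
    (fun Y => e ∈ Y)
  have h2 : ((F.powerset.filter (IsEven ends)).filter (fun Y => ¬ e ∈ Y)) =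
      (F.erase e).powerset.filter (IsEven ends) := by
    ext Y
    simp only [Finset.mem_filter, Finset.mem_powerset, Finset.subset_erase]
    tauto
  have h3 : ((F.powerset.filter (IsEven ends)).filter (fun Y => e ∈ Y)).card =
      ((F.powerset.filter (IsEven ends)).filter (fun Y => ¬ e ∈ Y)).card := by
    apply Finset.card_nbij' (fun Y => Y ∆ X) (fun Y => Y ∆ X)
    · intro Y hY
      simp only [Finset.coe_filter, Finset.mem_filter, Finset.mem_powerset, Set.mem_ofPred_eq] at hY ⊢
      refine ⟨⟨?_, hY.1.2.symmDiff hX⟩, ?_⟩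
      · intro a ha
        rw [Finset.mem_symmDiff] at ha
        rcases ha with ha | ha
        · exact hY.1.1 ha.1
        · exact hXF ha.1
      · rw [Finset.mem_symmDiff]; tauto
    · intro Y hY
      simp only [Finset.coe_filter, Finset.mem_filter, Finset.mem_powerset, Set.mem_ofPred_eq] at hY ⊢
      refine ⟨⟨?_, hY.1.2.symmDiff hX⟩, ?_⟩
      · intro a ha
        rw [Finset.mem_symmDiff] at ha
        rcases ha with ha | ha
        · exact hY.1.1 ha.1
        · exact hXF ha.1
      · rw [Finset.mem_symmDiff]; tauto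
    · intro Y _
      simp
    · intro Y _
      simp
  rw [← h2]
  convert h1.symm using 1
  rw [h3]; ring

lemma nu_erase_of_not [DecidableEq E] {F : Finset E} {e : E}
    (h : ¬ ∃ X ⊆ F, IsEven ends X ∧ e ∈ X) : nu ends (F.erase e) = nu ends F := by
  classical
  unfold nu
  congr 1
  ext Y
  simp only [Finset.mem_filter, Finset.mem_powerset, Finset.subset_erase]
  constructor
  · tauto
  · rintro ⟨h1, h2⟩
    exact ⟨⟨h1, fun he => h ⟨Y, h1, h2, he⟩⟩, h2⟩

lemma nu_eq_pow (F : Finset E) : ∃ k, nu ends F = 2 ^ k := by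
  classical
  induction F using Finset.induction_on with
  | empty => exact ⟨0, nu_empty⟩
  | insert e F he ih =>
    obtain ⟨k, hk⟩ := ih
    have h0 : (insert e F).erase e = F := Finset.erase_insert he
    by_cases h : ∃ X ⊆ insert e F, IsEven ends X ∧ e ∈ X
    · obtain ⟨X, h1, h2, h3⟩ := h
      refine ⟨k + 1, ?_⟩
      rw [nu_erase_of_mem h1 h2 h3, h0, hk]; ring
    · refine ⟨k, ?_⟩
      rw [← nu_erase_of_not h, h0, hk]

lemma nu_union [DecidableEq E] {F T : Finset E} (h : VDisj ends F T) :
    nu ends (F ∪ T) = nu ends F * nu ends T := by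
  classical
  unfold nu
  rw [← Finset.card_product]
  have hd := h.disjoint
  rw [Finset.disjoint_left] at hd
  apply Finset.card_nbij' (fun X => (X.filter (· ∈ F), X.filter (· ∈ T))) (fun p => p.1 ∪ p.2)
  · intro X hX
    simp only [Finset.coe_filter, Finset.mem_powerset, Set.mem_ofPred_eq, Finset.coe_product,
      Set.mem_prod] at hX ⊢
    refine ⟨⟨fun a ha => (Finset.mem_filter.1 ha).2, ?_⟩, ⟨fun a ha => (Finset.mem_filter.1 ha).2, ?_⟩⟩
    · apply hX.2.filter
      intro e he f hf v hv hv' heF
      rcases Finset.mem_union.1 (hX.1 hf) with h' | h'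
      · exact h'
      · exact absurd hv' (vdisj_iff.1 h e heF f h' v hv)
    · apply hX.2.filter
      intro e he f hf v hv hv' heF
      rcases Finset.mem_union.1 (hX.1 hf) with h' | h'
      · exact absurd hv (vdisj_iff.1 h f h' e heF v hv')
      · exact h'
  · rintro ⟨X, Y⟩ hp
    simp only [Finset.coe_filter, Finset.mem_powerset, Set.mem_ofPred_eq, Finset.coe_product,
      Set.mem_prod] at hp ⊢
    refine ⟨Finset.union_subset_union hp.1.1 hp.2.1, fun v => ?_⟩
    rw [deg_union (h.mono hp.1.1 hp.2.1).disjoint]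
    exact (hp.1.2 v).add (hp.2.2 v)
  · intro X hX
    simp only [Finset.coe_filter, Finset.mem_powerset, Set.mem_ofPred_eq] at hX
    ext a
    simp only [Finset.mem_union, Finset.mem_filter]
    constructor
    · tauto
    · intro ha
      have := Finset.mem_union.1 (hX.1 ha)
      tauto
  · rintro ⟨X, Y⟩ hp
    simp only [Finset.coe_filter, Finset.mem_powerset, Set.mem_ofPred_eq, Finset.coe_product,
      Set.mem_prod] at hp
    ext a
    · simp only [Finset.mem_union, Finset.mem_filter]
      constructor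
      · rintro ⟨h1 | h1, h2⟩
        · exact h1
        · exact absurd (hp.2.1 h1) (hd h2)
      · intro h1
        exact ⟨Or.inl h1, hp.1.1 h1⟩
    · simp only [Finset.mem_union, Finset.mem_filter]
      constructor
      · rintro ⟨h1 | h1, h2⟩
        · exact absurd h2 (hd (hp.1.1 h1))
        · exact h1
      · intro h1
        exact ⟨Or.inr h1, hp.2.1 h1⟩

lemma Bridgeless.eq_of_subset {F F' : Finset E} (hF' : Bridgeless ends F') (h : F ⊆ F')
    (hnu : nu ends F' ≤ nu ends F) : F = F' := by
  classical
  by_contra hne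
  obtain ⟨e, he', he⟩ := Finset.exists_of_ssubset (Finset.ssubset_iff_subset_ne.2 ⟨h, hne⟩)
  obtain ⟨X, h1, h2, h3⟩ := hF' e he'
  have h4 := nu_erase_of_mem h1 h2 h3
  have h5 : nu ends F ≤ nu ends (F'.erase e) := nu_mono (Finset.subset_erase.2 ⟨h, he⟩)
  have h6 := nu_pos (ends := ends) F
  omega

lemma Bridgeless.union [DecidableEq E] {F T : Finset E} (hF : Bridgeless ends F)
    (hT : Bridgeless ends T) : Bridgeless ends (F ∪ T) := by
  intro e he
  rcases Finset.mem_union.1 he with he | he
  · obtain ⟨X, h1, h2⟩ := hF e he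
    exact ⟨X, h1.trans Finset.subset_union_left, h2⟩
  · obtain ⟨X, h1, h2⟩ := hT e he
    exact ⟨X, h1.trans Finset.subset_union_right, h2⟩

lemma exists_bridgeless_nu_eq (W : Finset E) (k : ℕ) (hk : 2 ^ k ≤ nu ends W) :
    ∃ H ⊆ W, Bridgeless ends H ∧ nu ends H = 2 ^ k := by
  classical
  induction W using Finset.strongInduction with
  | H W ih =>
    by_cases h : ∃ e ∈ W, 2 ^ k ≤ nu ends (W.erase e)
    · obtain ⟨e, he, h⟩ := h
      obtain ⟨H, h1, h2⟩ := ih (W.erase e) (Finset.erase_ssubset he) h
      exact ⟨H, h1.trans (Finset.erase_subset _ _), h2⟩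
    · push Not at h
      have hb : Bridgeless ends W := by
        intro e he
        by_contra hc
        have := nu_erase_of_not hc
        have := h e he
        omega
      refine ⟨W, subset_rfl, hb, ?_⟩
      rcases W.eq_empty_or_nonempty with rfl | ⟨e, he⟩
      · rw [nu_empty] at hk ⊢
        have : 0 < 2 ^ k := by positivity
        omega
      · obtain ⟨X, h1, h2, h3⟩ := hb e he
        have h4 := nu_erase_of_mem h1 h2 h3
        have h5 := h e he
        obtain ⟨j, hj⟩ := nu_eq_pow (ends := ends) W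
        rw [hj] at hk h4 ⊢
        have h6 : 2 ^ j < 2 ^ (k + 1) := by rw [pow_succ]; omega
        have h7 : j < k + 1 := (Nat.pow_lt_pow_iff_right (by norm_num)).1 h6
        have h8 : k ≤ j := (Nat.pow_le_pow_iff_right (by norm_num)).1 hk
        congr 1; omega

end Pool.Agent.MP_221c76_co
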