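import Mathlib

universe u

namespace Pool.Agent.MP_221c76_co

/-- A graph: arbitrary (possibly infinite) vertex and edge sets, loops and multiple edges
allowed; every edge has an unordered pair of ends. -/
structure MultiGraph where
  V : Type u
  E : Type u
  ends : E → Sym2 V

namespace MultiGraph

/-- Isomorphic graphs. -/
def Iso (G H : MultiGraph.{u}) : Prop :=
  ∃ (φ : G.V ≃ H.V) (ψ : G.E ≃ H.E), ∀ e, H.ends (ψ e) = (G.ends e).map φ

/-- A subgraph: a vertex set and an edge set containing the ends of its edges. -/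
structure Subgraph (G : MultiGraph.{u}) where
  verts : Set G.V
  edges : Set G.E
  ends_mem : ∀ e ∈ edges, ∀ v ∈ G.ends e, v ∈ verts

/-- A subgraph regarded as a graph. -/
def Subgraph.toGraph {G : MultiGraph.{u}} (S : G.Subgraph) : MultiGraph.{u} where
  V := S.verts
  E := S.edges
  ends e := (G.ends e.1).attachWith (S.ends_mem e.1 e.2)

/-- Every vertex is an end of some edge. -/
def NoIsolatedVertex (G : MultiGraph.{u}) : Prop :=
  ∀ v, ∃ e, v ∈ G.ends e

/-- Replace the edge `e` (with ends `a`, `b`) by a path `a, w, b` through a new vertex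
`w = none`. -/
def subdivideEdge (G : MultiGraph.{u}) (e : G.E) (a b : G.V) : MultiGraph.{u} where
  V := Option G.V
  E := {f : G.E // f ≠ e} ⊕ Bool
  ends
    | .inl f => (G.ends f.1).map some
    | .inr false => s(some a, none)
    | .inr true => s(none, some b)

/-- `H` arises from `G` (up to isomorphism) by subdividing one edge. -/
def SubdivStep (G H : MultiGraph.{u}) : Prop :=
  ∃ (e : G.E) (a b : G.V), G.ends e = s(a, b) ∧ (G.subdivideEdge e a b).Iso H

/-- `G` arises from `K` (up to isomorphism) by a finite, possibly empty, sequence of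
subdivisions. -/
def FinSubdivision (K G : MultiGraph.{u}) : Prop :=
  ∃ K' : MultiGraph.{u}, K.Iso K' ∧ Relation.ReflTransGen SubdivStep K' G

/-- Homeomorphic: both arise from a common graph by finite sequences of subdivisions. -/
def Homeomorphic (G H : MultiGraph.{u}) : Prop :=
  ∃ K : MultiGraph.{u}, K.FinSubdivision G ∧ K.FinSubdivision H

/-- The `i`-th vertex on the path from `src e` to `tgt e` with `n e` new inner vertices. -/
def pathVertex (G : MultiGraph.{u}) (src tgt : G.E → G.V) (n : G.E → ℕ) (e : G.E) :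
    ℕ → G.V ⊕ (Σ e : G.E, Fin (n e))
  | 0 => .inl (src e)
  | i + 1 => if h : i < n e then .inr ⟨e, ⟨i, h⟩⟩ else .inl (tgt e)

/-- Replace every edge `e` simultaneously by a path from `src e` to `tgt e` with `n e` new inner
vertices (and `n e + 1` edges). -/
def subdivideAll (G : MultiGraph.{u}) (src tgt : G.E → G.V) (n : G.E → ℕ) : MultiGraph.{u} where
  V := G.V ⊕ (Σ e : G.E, Fin (n e))
  E := Σ e : G.E, Fin (n e + 1)
  ends p := s(G.pathVertex src tgt n p.1 p.2, G.pathVertex src tgt n p.1 (p.2 + 1))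

/-- `G` arises from `K` (up to isomorphism) by subdividing arbitrarily many (possibly infinitely
many) edges, each finitely often. -/
def Subdivision (K G : MultiGraph.{u}) : Prop :=
  ∃ (src tgt : K.E → K.V) (n : K.E → ℕ),
    (∀ e, K.ends e = s(src e, tgt e)) ∧ (K.subdivideAll src tgt n).Iso G

/-- Homeomorphic in the wide sense: both are subdivisions of a common graph, infinitely many
edges being allowed to be subdivided. -/
def WidelyHomeomorphic (G H : MultiGraph.{u}) : Prop :=
  ∃ K : MultiGraph.{u}, K.Subdivision G ∧ K.Subdivision H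

end MultiGraph

/-- The circuit conditions (C1) and (C2). -/
def IsCircuitFamily {E : Type u} (𝒞 : Set (Set E)) : Prop :=
  (∀ C ∈ 𝒞, ∀ C' ∈ 𝒞, ¬ C ⊂ C') ∧
  (∀ C' ∈ 𝒞, ∀ C'' ∈ 𝒞, C' ≠ C'' → ∀ e ∈ C' ∩ C'', ∃ C ∈ 𝒞, C ⊆ (C' ∪ C'') \ {e})

/-- Generalized matroidal family of graphs. -/
def IsMatroidalFamily (P : Set MultiGraph.{u}) : Prop :=
  P.Nonempty ∧ ∀ Γ : MultiGraph.{u},
    IsCircuitFamily {C : Set Γ.E | ∃ S : Γ.Subgraph, S.edges = C ∧ ∃ H ∈ P, S.toGraph.Iso H}

end Pool.Agent.MP_221c76_co
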