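import Pool.Agent.MP_221c76_co.Subdiv

open Finset

universe u

namespace Pool.Agent.MP_221c76_co

section cyc
variable (k : ℕ)

/-- the doubled cycle of length `k + 2` -/
def endsCyc (p : ZMod (k + 2) × Bool) : Sym2 (ZMod (k + 2)) := s(p.1, p.1 + 1)

def bead (i : ZMod (k + 2)) : Finset (ZMod (k + 2) × Bool) := {(i, false), (i, true)}

lemma succ_ne (i : ZMod (k + 2)) : i + 1 ≠ i := by
  have : Fact (1 < k + 2) := ⟨by omega⟩
  simp

lemma deg_bead (i v : ZMod (k + 2)) : deg (endsCyc k) (bead k i) v = 2 * inc s(i, i + 1) v := by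
  unfold deg bead
  rw [Finset.sum_pair (by simp)]
  simp only [endsCyc]
  ring

lemma deg_univ (v : ZMod (k + 2)) : deg (endsCyc k) Finset.univ v = 4 := by
  classical
  unfold deg
  rw [Fintype.sum_prod_type]
  simp only [endsCyc, inc_mk, Fintype.sum_bool]
  have h1 : ∀ x : ZMod (k + 2), x + 1 = v ↔ x = v - 1 := fun x => eq_sub_iff_add_eq.symm
  simp only [Finset.sum_add_distrib]
  have h2 : (∑ x : ZMod (k + 2), if x = v then 1 else 0) = 1 := by simp
  have h3 : (∑ x : ZMod (k + 2), if x + 1 = v then 1 else 0) = 1 := by simp [h1]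
  have h4 : ∀ a b c d : ℕ, a = 1 → b = 1 → c = 1 → d = 1 → a + b + (c + d) = 4 := by omega
  apply h4
  · convert h2
  · convert h3
  · convert h2
  · convert h3

lemma neck_cyc : Neck (endsCyc k) Finset.univ (Set.range (bead k)) where
  nonempty := Set.range_nonempty _
  sub _ _ := Finset.subset_univ _
  cover := by
    rintro ⟨i, b⟩ -
    exact ⟨_, ⟨i, rfl⟩, by cases b <;> simp [bead]⟩
  bead_even := by
    rintro _ ⟨i, rfl⟩ v
    rw [deg_bead]; exact even_two_mul _
  bead_min := by
    rintro _ ⟨i, rfl⟩ X hX hev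
    have h1 : ∀ b, ¬ IsEven (endsCyc k) {(i, b)} := by
      intro b h
      have := h i
      rw [deg_singleton] at this
      unfold endsCyc at this
      rw [inc_mk, if_pos rfl, if_neg (succ_ne k i)] at this
      exact absurd this (by decide)
    by_cases h2 : (i, false) ∈ X <;> by_cases h3 : (i, true) ∈ X
    · right
      apply Finset.Subset.antisymm hX
      intro x hx
      simp only [bead, Finset.mem_insert, Finset.mem_singleton] at hx
      rcases hx with rfl | rfl <;> assumption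
    · exfalso
      apply h1 false
      convert hev
      ext x
      rw [Finset.mem_singleton]
      constructor
      · rintro rfl; exact h2
      · intro hx
        have := hX hx
        simp only [bead, Finset.mem_insert, Finset.mem_singleton] at this
        rcases this with rfl | rfl
        · rfl
        · exact absurd hx h3
    · exfalso
      apply h1 true
      convert hev
      ext x
      rw [Finset.mem_singleton]
      constructor
      · rintro rfl; exact h3
      · intro hx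
        have := hX hx
        simp only [bead, Finset.mem_insert, Finset.mem_singleton] at this
        rcases this with rfl | rfl
        · exact absurd hx h2
        · rfl
    · left
      apply Finset.eq_empty_of_forall_notMem
      intro x hx
      have := hX hx
      simp only [bead, Finset.mem_insert, Finset.mem_singleton] at this
      rcases this with rfl | rfl
      · exact h2 hx
      · exact h3 hx
  even v := by rw [deg_univ]; decide
  deg_le v := by rw [deg_univ]
  junction := by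
    rintro _ ⟨i, rfl⟩
    refine ⟨i, i + 1, (succ_ne k i).symm, fun v => ?_⟩
    rw [deg_univ, deg_bead, ← Sym2.mem_iff, ← inc_ne_zero_iff]
    simp
  conn 𝓐 h𝓐 hne hcl := by
    obtain ⟨B, hB⟩ := hne
    obtain ⟨i, rfl⟩ := h𝓐 hB
    have h1 : ∀ m : ℕ, bead k (i + m) ∈ 𝓐 := by
      intro m
      induction m with
      | zero => simpa using hB
      | succ m ih =>
        apply hcl _ ih _ ⟨_, rfl⟩ (i + m + 1) (deg_univ _ _)
        · rw [deg_bead]
          have := (inc_ne_zero_iff s(i + m, i + m + 1) (i + m + 1)).2 (Sym2.mem_mk_right _ _)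
          omega
        · rw [deg_bead]
          have := (inc_ne_zero_iff s(i + (m + 1 : ℕ), i + (m + 1 : ℕ) + 1) (i + m + 1)).2
            (by rw [Nat.cast_succ, ← add_assoc]; exact Sym2.mem_mk_left _ _)
          omega
    rintro _ ⟨j, rfl⟩
    have := h1 (j - i).val
    simpa using this

lemma le_nu_cyc : k + 2 ≤ nu (endsCyc k) Finset.univ := by
  classical
  unfold nu
  have h1 : k + 2 = (Finset.univ : Finset (ZMod (k + 2))).card := by simp [ZMod.card]
  conv_lhs => rw [h1]
  apply Finset.card_le_card_of_injOn (bead k)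
  · intro i _
    simp only [Finset.coe_filter, Finset.mem_powerset, Set.mem_ofPred_eq]
    exact ⟨Finset.subset_univ _, (neck_cyc k).bead_even _ ⟨i, rfl⟩⟩
  · intro i _ j _ hij
    have : (i, false) ∈ bead k j := by rw [← hij]; simp [bead]
    simpa [bead] using this

end cyc

lemma exists_sigma : ∃ κ : ℕ → ℕ, Function.Injective fun n => nu (endsCyc (κ n)) Finset.univ := by
  have h1 : (Set.range fun k => nu (endsCyc k) Finset.univ).Infinite := by
    apply Set.infinite_of_forall_exists_gt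
    intro a
    exact ⟨_, ⟨a, rfl⟩, lt_of_lt_of_le (by omega) (le_nu_cyc a)⟩
  have h2 : ∀ n, ∃ k, nu (endsCyc k) Finset.univ = (h1.natEmbedding _ n : ℕ) := fun n =>
    (h1.natEmbedding _ n).2
  choose κ hκ using h2
  refine ⟨κ, fun m n hmn => ?_⟩
  simp only [hκ] at hmn
  exact (h1.natEmbedding _).injective (Subtype.ext hmn)

abbrev HV : Type u := ULift (Option (Σ k : ℕ, ZMod (k + 2)))

abbrev HE : Type u := ULift (ℕ ⊕ (Σ k : ℕ, ZMod (k + 2) × Bool))

def vtx (k : ℕ) (i : ZMod (k + 2)) : HV.{u} := ⟨some ⟨k, i⟩⟩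

def edg (k : ℕ) (p : ZMod (k + 2) × Bool) : HE.{u} := ⟨.inr ⟨k, p⟩⟩

lemma vtx_inj (k : ℕ) : Function.Injective (vtx.{u} k) := by
  intro a b h
  simpa [vtx] using h

lemma edg_inj (k : ℕ) : Function.Injective (edg.{u} k) := by
  intro a b h
  simpa [edg] using h

def hostEnds : HE.{u} → Sym2 HV.{u}
  | ⟨.inl _⟩ => s(⟨none⟩, ⟨none⟩)
  | ⟨.inr p⟩ => (endsCyc p.1 p.2).map (vtx p.1)

/-- the host graph: infinitely many loops at one vertex, and all doubled cycles -/
abbrev host : MultiGraph.{u} where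
  V := HV.{u}
  E := HE.{u}
  ends := hostEnds

noncomputable def cycTransfer (k : ℕ) : Transfer (endsCyc k) host.{u}.ends :=
  embTransfer (vtx k) (edg k) (vtx_inj k) (edg_inj k) (fun _ => rfl)

noncomputable def hostNeck (k : ℕ) : Finset host.{u}.E := (cycTransfer k).lift Finset.univ

lemma hostNeck_vert {k : ℕ} {e : host.{u}.E} (he : e ∈ hostNeck k) {v : host.{u}.V}
    (hv : v ∈ host.ends e) : ∃ i, v = ⟨some ⟨k, i⟩⟩ := by
  obtain ⟨a, -, ha⟩ := (cycTransfer k).mem_lift.1 he
  have ha' : e ∈ ({edg k a} : Finset HE.{u}) := ha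
  obtain rfl : e = edg k a := Finset.mem_singleton.1 ha'
  have hv' : v ∈ (endsCyc k a).map (vtx k) := hv
  obtain ⟨i, -, rfl⟩ := Sym2.mem_map.1 hv'
  exact ⟨i, rfl⟩

def loops (m : ℕ) : Finset host.{u}.E :=
  (range m).map ⟨fun j => ⟨.inl j⟩, fun _ _ h => Sum.inl.inj (congrArg ULift.down h)⟩

lemma loops_ends {m : ℕ} {e : host.{u}.E} (he : e ∈ loops m) :
    host.ends e = s(⟨none⟩, ⟨none⟩) := by
  obtain ⟨j, -, rfl⟩ := Finset.mem_map.1 he
  rfl

lemma isEven_of_subset_loops {m : ℕ} {X : Finset host.{u}.E} (hX : X ⊆ loops m) :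
    IsEven host.ends X := by
  intro v
  apply Finset.even_sum
  intro e he
  rw [loops_ends (hX he), inc_mk]
  exact Even.add_self _

lemma nu_loops (m : ℕ) : nu host.{u}.ends (loops m) = 2 ^ m := by
  classical
  unfold nu
  rw [Finset.filter_true_of_mem fun X hX => isEven_of_subset_loops (Finset.mem_powerset.1 hX)]
  simp [loops]

lemma deg_loops (m : ℕ) : deg host.{u}.ends (loops m) ⟨none⟩ = 2 * m := by
  unfold deg
  rw [Finset.sum_congr rfl (g := fun _ => 2) fun e he => by rw [loops_ends he, inc_mk]; simp]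
  simp [loops, mul_comm]

lemma exists_good {κ : ℕ → ℕ} (hκ : Function.Injective fun n => nu (endsCyc (κ n)) Finset.univ)
    (N : ℕ) : ∃ C : Set host.{u}.E, Good host.ends (fun n => nu (endsCyc (κ n)) Finset.univ) C ∧
      ∃ (X : Finset host.{u}.E) (v : host.{u}.V), (∀ e ∈ X, e ∈ C) ∧ N ≤ deg host.ends X v := by
  have h1 : ∃ m, N ≤ m ∧ ∏ n ∈ range N, nu (endsCyc (κ n)) Finset.univ = 2 ^ m := by
    induction N with
    | zero => exact ⟨0, le_rfl, by simp⟩
    | succ N ih =>
      obtain ⟨m, hm, h⟩ := ih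
      obtain ⟨j, hj⟩ := nu_eq_pow (ends := endsCyc (κ N)) Finset.univ
      have h2 := le_nu_cyc (κ N)
      refine ⟨m + j, ?_, by rw [Finset.prod_range_succ, h, hj, pow_add]⟩
      rcases Nat.eq_zero_or_pos j with rfl | h3
      · rw [hj] at h2; omega
      · omega
  obtain ⟨m, hm, h⟩ := h1
  refine ⟨{e | e ∈ loops m ∨ ∃ n, N ≤ n ∧ e ∈ hostNeck (κ n)},
    ⟨N, loops m, fun n => hostNeck (κ n), ?_, ?_, ?_, ?_, ?_, ?_, fun e => Iff.rfl⟩,
    loops m, ⟨none⟩, fun e he => Or.inl he, by rw [deg_loops]; omega⟩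
  · exact fun e he => ⟨_, subset_rfl, isEven_of_subset_loops subset_rfl, he⟩
  · rw [nu_loops, h]
  · exact fun n _ => (cycTransfer (κ n)).isNeck_lift.2 ⟨_, neck_cyc _⟩
  · exact fun n _ => (cycTransfer (κ n)).nu_lift _
  · intro n _
    rw [vdisj_iff]
    intro e he f hf v hv hv'
    obtain ⟨i, rfl⟩ := hostNeck_vert hf hv'
    rw [loops_ends he] at hv
    have := congrArg ULift.down ((Sym2.mem_iff.1 hv).elim id id)
    cases this
  · intro a b _ _ hab
    rw [vdisj_iff]
    intro e he f hf v hv hv'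
    obtain ⟨i, rfl⟩ := hostNeck_vert hf hv'
    obtain ⟨j, hj⟩ := hostNeck_vert he hv
    have h3 : κ b = κ a := congrArg Sigma.fst (Option.some.inj (congrArg ULift.down hj))
    exact hab (hκ (congrArg (fun k => nu (endsCyc k) Finset.univ) h3.symm))

section
variable {V E V' E' : Type*}

lemma hasDeg_of_emb {ends : E → Sym2 V} {ends' : E' → Sym2 V'} (φ : V → V') (ψ : E → E')
    (hφ : Function.Injective φ) (hψ : Function.Injective ψ)
    (h : ∀ e, ends' (ψ e) = (ends e).map φ) {Y : Finset E'} (hY : ∀ e ∈ Y, e ∈ Set.range ψ)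
    {w : V'} {d : ℕ} (hd : 3 ≤ d) (hw : d ≤ deg ends' Y w) : HasDeg ends d := by
  let t := embTransfer φ ψ hφ hψ h
  have h1 : Y ⊆ t.lift (Y.preimage ψ hψ.injOn) := by
    intro e he
    obtain ⟨a, rfl⟩ := hY e he
    exact t.mem_lift.2 ⟨a, Finset.mem_preimage.2 he, Finset.mem_singleton_self _⟩
  have h2 := deg_mono (ends := ends') h1 w
  obtain ⟨v, rfl⟩ := t.exists_old_of_deg (X := Y.preimage ψ hψ.injOn) (w := w) (by omega)
  rw [t.deg_lift_old] at h2
  exact ⟨v, _, hw.trans h2⟩

lemma deg_le_of_forall {ends : E → Sym2 V} {X Y : Finset E} {v : V}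
    (h : ∀ e ∈ X, v ∈ ends e → e ∈ Y) : deg ends X v ≤ deg ends Y v := by
  classical
  have h1 := deg_inter_add_sdiff (ends := ends) X Y v
  have h2 : deg ends (X \ Y) v = 0 := by
    rw [deg_eq_zero_iff]
    intro e he hv
    rw [Finset.mem_sdiff] at he
    exact he.2 (h e he.1 hv)
  have h3 := deg_mono (ends := ends) (Finset.inter_subset_right (s₁ := X) (s₂ := Y)) v
  omega

lemma inc_le_two (z : Sym2 V) (v : V) : inc z v ≤ 2 := by
  induction z using Sym2.ind with
  | _ a b => rw [inc_mk]; split_ifs <;> omega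

lemma Good.bdd {ends : E → Sym2 V} {σ : ℕ → ℕ} (h : Good ends σ Set.univ) :
    ∃ D, ∀ d, HasDeg ends d → d ≤ D := by
  obtain ⟨N, F, T, h⟩ := h
  refine ⟨2 * F.card + 4, ?_⟩
  rintro d ⟨v, X, hd⟩
  refine hd.trans ?_
  have hF : deg ends F v ≤ 2 * F.card := by
    have := Finset.sum_le_card_nsmul F (fun e => inc (ends e) v) 2 fun e _ => inc_le_two _ _
    rw [smul_eq_mul, mul_comm] at this
    exact this
  by_cases h1 : ∃ n, N ≤ n ∧ deg ends (T n) v ≠ 0
  · obtain ⟨n, hn, h1⟩ := h1
    have h2 : deg ends X v ≤ deg ends (T n) v := by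
      apply deg_le_of_forall
      intro e _ hv
      rcases (h.mem e).1 trivial with h3 | ⟨m, hm, h3⟩
      · exact absurd hv (deg_eq_zero_iff.1 ((h.disj n hn v).resolve_right h1) e h3)
      · by_cases hmn : m = n
        · exact hmn ▸ h3
        · exact absurd hv (deg_eq_zero_iff.1 ((h.disj' m n hm hn hmn v).resolve_right h1) e h3)
    have := (h.neck n hn).deg_le v
    omega
  · push Not at h1
    have h2 : deg ends X v ≤ deg ends F v := by
      apply deg_le_of_forall
      intro e _ hv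
      rcases (h.mem e).1 trivial with h3 | ⟨m, hm, h3⟩
      · exact h3
      · exact absurd hv (deg_eq_zero_iff.1 (h1 m hm) e h3)
    omega

end

/-- the family -/
def family (σ : ℕ → ℕ) : Set MultiGraph.{u} := {G | Good G.ends σ Set.univ ∧ NoIso G.ends}

lemma mem_family_of_same {σ : ℕ → ℕ} {G H : MultiGraph.{u}} (hG : G ∈ family σ)
    (h : Same G.ends H.ends) : H ∈ family σ := ⟨(h.good σ).1 hG.1, h.noIso.1 hG.2⟩

lemma span_mem_family {σ : ℕ → ℕ} {G : MultiGraph.{u}} {C : Set G.E} (h : Good G.ends σ C) :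
    (G.span C).toGraph ∈ family σ := ⟨(G.span C).good_iff.2 h, G.span_noIso C⟩

lemma iso_refl (G : MultiGraph.{u}) : G.Iso G := ⟨Equiv.refl _, Equiv.refl _, fun e => by simp⟩

lemma circuits_eq {σ : ℕ → ℕ} (Γ : MultiGraph.{u}) :
    {C : Set Γ.E | ∃ S : Γ.Subgraph, S.edges = C ∧ ∃ H ∈ family σ, S.toGraph.Iso H} =
      {C | Good Γ.ends σ C} := by
  ext C
  constructor
  · rintro ⟨S, rfl, H, hH, h⟩
    exact S.good_iff.1 ((h.same.good σ).2 hH.1)
  · intro h
    exact ⟨Γ.span C, rfl, _, span_mem_family h, iso_refl _⟩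

lemma infinite_classes {σ : ℕ → ℕ} (hex : ∀ d, 3 ≤ d → ∃ G ∈ family.{u} σ, HasDeg G.ends d)
    (r : MultiGraph.{u} → MultiGraph.{u} → Prop) (hr : ∀ G H, r G H → Same G.ends H.ends) :
    Infinite (Quot fun G H : family.{u} σ => r G.1 H.1) := by
  by_contra hfin
  rw [not_infinite_iff_finite] at hfin
  let f : (Quot fun G H : family.{u} σ => r G.1 H.1) → Set ℕ :=
    Quot.lift (fun G => {d | 3 ≤ d ∧ HasDeg G.1.ends d}) (by
      intro G H h
      ext d
      exact and_congr_right fun hd => (hr _ _ h).hasDeg d hd)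
  have h1 : ∀ q, ∃ D, ∀ d ∈ f q, d ≤ D := by
    rintro ⟨G⟩
    obtain ⟨D, hD⟩ := G.2.1.bdd
    exact ⟨D, fun d hd => hD d hd.2⟩
  choose D hD using h1
  obtain ⟨M, hM⟩ := (Set.finite_range D).bddAbove
  obtain ⟨G, hG, h⟩ := hex (M + 3) (by omega)
  have h2 := hD (Quot.mk _ ⟨G, hG⟩) (M + 3) ⟨by omega, h⟩
  have h3 := hM ⟨Quot.mk _ ⟨G, hG⟩, rfl⟩
  omega

theorem main : ∃ P : Set MultiGraph.{u}, IsMatroidalFamily P ∧
    (∀ G ∈ P, G.NoIsolatedVertex) ∧
    (∀ G ∈ P, ∀ H, G.Homeomorphic H → H ∈ P) ∧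
    Infinite (Quot fun G H : P => G.1.Homeomorphic H.1) ∧
    (∀ G ∈ P, ∀ H, G.WidelyHomeomorphic H → H ∈ P) ∧
    Infinite (Quot fun G H : P => G.1.WidelyHomeomorphic H.1) := by
  obtain ⟨κ, hκ⟩ := exists_sigma
  set σ : ℕ → ℕ := fun n => nu (endsCyc (κ n)) Finset.univ with hσ
  have hex : ∀ d, 3 ≤ d → ∃ G ∈ family.{u} σ, HasDeg G.ends d := by
    intro d hd
    obtain ⟨C, hC, X, v, hX, hv⟩ := exists_good.{u} hκ d
    refine ⟨_, span_mem_family hC, ?_⟩
    exact hasDeg_of_emb (ends := (host.span C).toGraph.ends) (ends' := host.ends) Subtype.val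
      Subtype.val Subtype.val_injective Subtype.val_injective
      (fun e => (Sym2.attachWith_map_subtypeVal _).symm) (fun e he => ⟨⟨e, hX e he⟩, rfl⟩) hd hv
  refine ⟨family σ, ⟨?_, fun Γ => ?_⟩, fun G hG => hG.2, fun G hG H h => mem_family_of_same hG h.same,
    infinite_classes hex _ fun _ _ h => h.same, fun G hG H h => mem_family_of_same hG h.same,
    infinite_classes hex _ fun _ _ h => h.same⟩
  · obtain ⟨G, hG, -⟩ := hex 3 le_rfl
    exact ⟨G, hG⟩
  · rw [circuits_eq]
    constructor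
    · intro C hC C' hC' h
      exact h.ne (Good.eq_of_subset hκ hC' hC h.subset)
    · intro C₁ h₁ C₂ h₂ hne e he
      exact Good.elim hκ h₁ h₂ hne he.1

end Pool.Agent.MP_221c76_co
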