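import Pool.Agent.MP_221c76_co.Basic

open Finset
open scoped symmDiff

namespace Pool.Agent.MP_221c76_co

variable {V E : Type*} (ends : E → Sym2 V)

/-- necklace structure on a finite edge set `T` with set of beads `𝓑` -/
structure Neck (T : Finset E) (𝓑 : Set (Finset E)) : Prop where
  nonempty : 𝓑.Nonempty
  sub : ∀ B ∈ 𝓑, B ⊆ T
  cover : ∀ e ∈ T, ∃ B ∈ 𝓑, e ∈ B
  bead_even : ∀ B ∈ 𝓑, IsEven ends B
  bead_min : ∀ B ∈ 𝓑, ∀ X ⊆ B, IsEven ends X → X = ∅ ∨ X = B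
  even : IsEven ends T
  deg_le : ∀ v, deg ends T v ≤ 4
  junction : ∀ B ∈ 𝓑, ∃ w₁ w₂, w₁ ≠ w₂ ∧
    ∀ v, (deg ends B v ≠ 0 ∧ deg ends T v = 4) ↔ (v = w₁ ∨ v = w₂)
  conn : ∀ 𝓐 ⊆ 𝓑, 𝓐.Nonempty → (∀ B ∈ 𝓐, ∀ B' ∈ 𝓑, ∀ v, deg ends T v = 4 → deg ends B v ≠ 0 →
    deg ends B' v ≠ 0 → B' ∈ 𝓐) → 𝓑 ⊆ 𝓐

def IsNeck (T : Finset E) : Prop := ∃ 𝓑, Neck ends T 𝓑

variable {ends}

lemma deg_sdiff_eq_zero [DecidableEq E] {X Y : Finset E} (h : X ⊆ Y) {v : V}
    (hv : deg ends Y v ≤ deg ends X v) : deg ends (Y \ X) v = 0 := by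
  have h1 := deg_inter_add_sdiff (ends := ends) Y X v
  rw [Finset.inter_eq_right.2 h] at h1
  omega

lemma Neck.bead_nonempty {T : Finset E} {𝓑 : Set (Finset E)} (h : Neck ends T 𝓑) {B : Finset E}
    (hB : B ∈ 𝓑) : B.Nonempty := by
  obtain ⟨w₁, w₂, -, hw⟩ := h.junction B hB
  obtain ⟨e, he, -⟩ := deg_ne_zero_iff.1 ((hw w₁).2 (Or.inl rfl)).1
  exact ⟨e, he⟩

lemma IsNeck.nonempty {T : Finset E} (h : IsNeck ends T) : T.Nonempty := by
  obtain ⟨𝓑, h⟩ := h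
  obtain ⟨B, hB⟩ := h.nonempty
  exact (h.bead_nonempty hB).mono (h.sub B hB)

lemma IsNeck.bridgeless {T : Finset E} (h : IsNeck ends T) : Bridgeless ends T := by
  obtain ⟨𝓑, h⟩ := h
  exact fun e he => ⟨T, subset_rfl, h.even, he⟩

lemma IsNeck.deg_le {T : Finset E} (h : IsNeck ends T) (v : V) : deg ends T v ≤ 4 := by
  obtain ⟨𝓑, h⟩ := h
  exact h.deg_le v

lemma Neck.deg_le_two {T : Finset E} {𝓑 : Set (Finset E)} (h : Neck ends T 𝓑) {v : V}
    (hv : deg ends T v ≠ 4) : deg ends T v ≤ 2 := by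
  have h1 := h.deg_le v
  obtain ⟨k, hk⟩ := h.even v
  omega

lemma two_le_deg {B : Finset E} (hB : IsEven ends B) {v : V} (hv : deg ends B v ≠ 0) :
    2 ≤ deg ends B v := by
  obtain ⟨k, hk⟩ := hB v
  omega

/-- a necklace lies in one component -/
lemma IsNeck.connected {T : Finset E} (h : IsNeck ends T) (p : E → Prop)
    (hp : ∀ e ∈ T, ∀ f ∈ T, ∀ v, v ∈ ends e → v ∈ ends f → p e → p f)
    {e₀ : E} (he₀ : e₀ ∈ T) (hpe : p e₀) : ∀ e ∈ T, p e := by
  classical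
  obtain ⟨𝓑, h⟩ := h
  have key : ∀ B ∈ 𝓑, ∀ e ∈ B, p e → ∀ f ∈ B, p f := by
    intro B hB e he hpe f hf
    have h1 : IsEven ends (B.filter p) := (h.bead_even B hB).filter p fun e he f hf =>
      hp e (h.sub B hB he) f (h.sub B hB hf)
    rcases h.bead_min B hB _ (Finset.filter_subset _ _) h1 with h2 | h2
    · have : e ∈ B.filter p := Finset.mem_filter.2 ⟨he, hpe⟩
      rw [h2] at this
      simp at this
    · rw [← h2] at hf
      exact (Finset.mem_filter.1 hf).2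
  have h2 := h.conn {B | B ∈ 𝓑 ∧ ∀ f ∈ B, p f} (fun B hB => hB.1) (by
    obtain ⟨B, hB, he⟩ := h.cover e₀ he₀
    exact ⟨B, hB, key B hB e₀ he hpe⟩) (by
    intro B hB B' hB' v _ h1 h2
    obtain ⟨e, he, hv⟩ := deg_ne_zero_iff.1 h1
    obtain ⟨f, hf, hv'⟩ := deg_ne_zero_iff.1 h2
    exact ⟨hB', key B' hB' f hf (hp e (h.sub B hB.1 he) f (h.sub B' hB' hf) v hv hv' (hB.2 e he))⟩)
  intro e he
  obtain ⟨B, hB, he'⟩ := h.cover e he
  exact (h2 hB).2 e he'

lemma Neck.bead_subset {T T' : Finset E} {𝓑 𝓑' : Set (Finset E)} (h : Neck ends T 𝓑)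
    (h' : Neck ends T' 𝓑') (hT : T' ⊆ T) {B : Finset E} (hB : B ∈ 𝓑) {w : V}
    (hw : deg ends B w ≠ 0) (hw' : deg ends T' w = 4) : B ⊆ T' := by
  classical
  have hw4 : deg ends T w = 4 := le_antisymm (h.deg_le w) (hw' ▸ deg_mono hT w)
  obtain ⟨w₁, w₂, hne, hj⟩ := h.junction B hB
  -- the other junction
  obtain ⟨w', hw'j⟩ : ∃ w', ∀ v, deg ends B v ≠ 0 → deg ends T v = 4 → v = w ∨ v = w' := by
    rcases (hj w).1 ⟨hw, hw4⟩ with rfl | rfl
    · exact ⟨w₂, fun v h1 h2 => (hj v).1 ⟨h1, h2⟩⟩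
    · exact ⟨w₁, fun v h1 h2 => ((hj v).1 ⟨h1, h2⟩).symm⟩
  have hBw : deg ends (B ∩ T') w = deg ends B w := by
    have h1 : deg ends (T \ T') w = 0 := deg_sdiff_eq_zero hT (by omega)
    have h2 : deg ends (B \ T') w ≤ deg ends (T \ T') w :=
      deg_mono (Finset.sdiff_subset_sdiff (h.sub B hB) subset_rfl) w
    have h3 := deg_inter_add_sdiff (ends := ends) B T' w
    omega
  have hev : IsEven ends (B ∩ T') := by
    apply isEven_of_forall_ne w'
    intro u hu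
    by_cases huw : u = w
    · rw [huw, hBw]; exact h.bead_even B hB w
    by_cases hu0 : deg ends B u = 0
    · have := deg_mono (ends := ends) (Finset.inter_subset_left (s₁ := B) (s₂ := T')) u
      have h0 : deg ends (B ∩ T') u = 0 := by omega
      rw [h0]; exact Even.zero
    have hu4 : deg ends T u ≠ 4 := fun h4 => by
      rcases hw'j u hu0 h4 with h5 | h5
      · exact huw h5
      · exact hu h5
    have h1 := h.deg_le_two hu4
    have h2 := two_le_deg (h.bead_even B hB) hu0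
    have h3 : deg ends (T \ B) u = 0 := deg_sdiff_eq_zero (h.sub B hB) (by omega)
    have h4 : deg ends (T' \ B) u ≤ deg ends (T \ B) u :=
      deg_mono (Finset.sdiff_subset_sdiff hT subset_rfl) u
    have h5 := deg_inter_add_sdiff (ends := ends) T' B u
    rw [Finset.inter_comm] at h5
    have h6 : deg ends (B ∩ T') u = deg ends T' u := by omega
    rw [h6]; exact h'.even u
  rcases h.bead_min B hB _ Finset.inter_subset_left hev with h1 | h1
  · rw [h1] at hBw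
    simp only [deg_empty] at hBw
    exact absurd hBw.symm hw
  · exact Finset.inter_eq_left.1 h1

lemma Neck.junction_of_subset {T T' : Finset E} {𝓑 𝓑' : Set (Finset E)} (h : Neck ends T 𝓑)
    (h' : Neck ends T' 𝓑') (hT : T' ⊆ T) {B : Finset E} (hB : B ∈ 𝓑) {w : V}
    (hw : deg ends B w ≠ 0) (hw' : deg ends T' w = 4) {v : V} (hv : deg ends B v ≠ 0)
    (hv4 : deg ends T v = 4) : deg ends T' v = 4 := by
  classical
  by_contra hv'
  have hBT' := h.bead_subset h' hT hB hw hw'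
  have h44 : ∀ u, deg ends T' u = 4 → deg ends T u = 4 := fun u hu =>
    le_antisymm (h.deg_le u) (hu ▸ deg_mono hT u)
  obtain ⟨w₁, w₂, hne, hj⟩ := h.junction B hB
  have hvw : v ≠ w := fun h => hv' (h ▸ hw')
  -- `w` is the only junction of `T'` on `B`
  have honly : ∀ u, deg ends B u ≠ 0 → deg ends T' u = 4 → u = w := by
    intro u hu hu4
    have h1 := (hj u).1 ⟨hu, h44 u hu4⟩
    have h2 := (hj v).1 ⟨hv, hv4⟩
    have h3 := (hj w).1 ⟨hw, h44 w hw'⟩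
    have h4 : u ≠ v := fun h => hv' (h ▸ hu4)
    rcases h1 with h1 | h1 <;> rcases h2 with h2 | h2 <;> rcases h3 with h3 | h3 <;>
      first
        | exact h1.trans h3.symm
        | exact absurd (h1.trans h2.symm) h4
        | exact absurd (h2.trans h3.symm) hvw
  obtain ⟨e, he⟩ := h.bead_nonempty hB
  obtain ⟨B', hB', he'⟩ := h'.cover e (hBT' he)
  have hev : IsEven ends (B ∩ B') := by
    apply isEven_of_forall_ne w
    intro u hu
    by_cases hu0 : deg ends (B ∩ B') u = 0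
    · rw [hu0]; exact Even.zero
    have h1 := deg_mono (ends := ends) (Finset.inter_subset_left (s₁ := B) (s₂ := B')) u
    have h2 := deg_mono (ends := ends) (Finset.inter_subset_right (s₁ := B) (s₂ := B')) u
    have hu4 : deg ends T' u ≠ 4 := fun h4 => hu (honly u (by omega) h4)
    have h3 := h'.deg_le_two hu4
    have h4 := two_le_deg (h'.bead_even B' hB') (v := u) (by omega)
    have h5 : deg ends (T' \ B') u = 0 := deg_sdiff_eq_zero (h'.sub B' hB') (by omega)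
    have h6 : deg ends (B \ B') u ≤ deg ends (T' \ B') u :=
      deg_mono (Finset.sdiff_subset_sdiff hBT' subset_rfl) u
    have h7 := deg_inter_add_sdiff (ends := ends) B B' u
    have h8 : deg ends (B ∩ B') u = deg ends B u := by omega
    rw [h8]; exact h.bead_even B hB u
  have hne' : B ∩ B' ≠ ∅ := Finset.ne_empty_of_mem (Finset.mem_inter.2 ⟨he, he'⟩)
  have h1 : B ∩ B' = B := (h.bead_min B hB _ Finset.inter_subset_left hev).resolve_left hne'
  have h2 : B ∩ B' = B' := (h'.bead_min B' hB' _ Finset.inter_subset_right hev).resolve_left hne'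
  have h3 : B' = B := h2.symm.trans h1
  obtain ⟨u₁, u₂, hne2, hj'⟩ := h'.junction B' hB'
  have h4 := (hj' u₁).2 (Or.inl rfl)
  have h5 := (hj' u₂).2 (Or.inr rfl)
  rw [h3] at h4 h5
  exact hne2 ((honly u₁ h4.1 h4.2).trans (honly u₂ h5.1 h5.2).symm)

/-- necklaces form an antichain -/
lemma IsNeck.eq_of_subset {T T' : Finset E} (h : IsNeck ends T) (h' : IsNeck ends T')
    (hT : T' ⊆ T) : T' = T := by
  obtain ⟨𝓑, h⟩ := h
  obtain ⟨𝓑', h'⟩ := h'
  have h2 := h.conn {B | B ∈ 𝓑 ∧ ∃ w, deg ends B w ≠ 0 ∧ deg ends T' w = 4} (fun B hB => hB.1) (by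
    obtain ⟨B', hB'⟩ := h'.nonempty
    obtain ⟨w₁, w₂, -, hj⟩ := h'.junction B' hB'
    have h1 := (hj w₁).2 (Or.inl rfl)
    obtain ⟨e, he, hv⟩ := deg_ne_zero_iff.1 h1.1
    obtain ⟨B, hB, heB⟩ := h.cover e (hT (h'.sub B' hB' he))
    exact ⟨B, hB, w₁, deg_ne_zero_iff.2 ⟨e, heB, hv⟩, h1.2⟩) (by
    rintro B ⟨hB, w, hw, hw'⟩ B' hB' v hv4 h1 h2
    exact ⟨hB', v, h2, h.junction_of_subset h' hT hB hw hw' h1 hv4⟩)
  apply Finset.Subset.antisymm hT
  intro e he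
  obtain ⟨B, hB, he'⟩ := h.cover e he
  obtain ⟨-, w, hw, hw'⟩ := h2 hB
  exact h.bead_subset h' hT hB hw hw' he'

variable (ends) in
/-- the data exhibiting an edge set as a member of the family -/
structure GoodData (σ : ℕ → ℕ) (C : Set E) (N : ℕ) (F : Finset E) (T : ℕ → Finset E) : Prop where
  bridgeless : Bridgeless ends F
  nu_eq : nu ends F = ∏ n ∈ range N, σ n
  neck : ∀ n, N ≤ n → IsNeck ends (T n)
  nu_neck : ∀ n, N ≤ n → nu ends (T n) = σ n
  disj : ∀ n, N ≤ n → VDisj ends F (T n)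
  disj' : ∀ m n, N ≤ m → N ≤ n → m ≠ n → VDisj ends (T m) (T n)
  mem : ∀ e, e ∈ C ↔ e ∈ F ∨ ∃ n, N ≤ n ∧ e ∈ T n

variable (ends) in
def Good (σ : ℕ → ℕ) (C : Set E) : Prop := ∃ N F T, GoodData ends σ C N F T

variable {σ : ℕ → ℕ}

lemma GoodData.absorb_one [DecidableEq E] {C : Set E} {N : ℕ} {F : Finset E} {T : ℕ → Finset E}
    (h : GoodData ends σ C N F T) : GoodData ends σ C (N + 1) (F ∪ T N) T where
  bridgeless := h.bridgeless.union (h.neck N le_rfl).bridgeless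
  nu_eq := by rw [nu_union (h.disj N le_rfl), h.nu_eq, h.nu_neck N le_rfl, Finset.prod_range_succ]
  neck n hn := h.neck n (by omega)
  nu_neck n hn := h.nu_neck n (by omega)
  disj n hn := (h.disj n (by omega)).union_left (h.disj' N n le_rfl (by omega) (by omega))
  disj' m n hm hn hmn := h.disj' m n (by omega) (by omega) hmn
  mem e := by
    rw [h.mem, Finset.mem_union]
    constructor
    · rintro (h1 | ⟨n, hn, h1⟩)
      · exact Or.inl (Or.inl h1)
      · rcases hn.eq_or_lt with rfl | hn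
        · exact Or.inl (Or.inr h1)
        · exact Or.inr ⟨n, hn, h1⟩
    · rintro ((h1 | h1) | ⟨n, hn, h1⟩)
      · exact Or.inl h1
      · exact Or.inr ⟨N, le_rfl, h1⟩
      · exact Or.inr ⟨n, by omega, h1⟩

lemma GoodData.absorb {C : Set E} {N : ℕ} {F : Finset E} {T : ℕ → Finset E}
    (h : GoodData ends σ C N F T) {M : ℕ} (hM : N ≤ M) : ∃ F', GoodData ends σ C M F' T := by
  classical
  induction M, hM using Nat.le_induction with
  | base => exact ⟨F, h⟩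
  | succ M _ ih =>
    obtain ⟨F', h'⟩ := ih
    exact ⟨_, h'.absorb_one⟩

lemma Good.exists_even {C : Set E} (h : Good ends σ C) {e : E} (he : e ∈ C) :
    ∃ X : Finset E, (∀ f ∈ X, f ∈ C) ∧ IsEven ends X ∧ e ∈ X := by
  obtain ⟨N, F, T, h⟩ := h
  rcases (h.mem e).1 he with h1 | ⟨n, hn, h1⟩
  · obtain ⟨X, h2, h3, h4⟩ := h.bridgeless e h1
    exact ⟨X, fun f hf => (h.mem f).2 (Or.inl (h2 hf)), h3, h4⟩
  · obtain ⟨X, h2, h3, h4⟩ := (h.neck n hn).bridgeless e h1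
    exact ⟨X, fun f hf => (h.mem f).2 (Or.inr ⟨n, hn, h2 hf⟩), h3, h4⟩

lemma eventually_gt_of_injective (hσ : Function.Injective σ) (k : ℕ) :
    ∃ M, ∀ n, M ≤ n → k < σ n := by
  have h1 : (σ ⁻¹' (Set.Iic k)).Finite := (Set.finite_Iic k).preimage hσ.injOn
  obtain ⟨M, hM⟩ := h1.bddAbove
  refine ⟨M + 1, fun n hn => ?_⟩
  by_contra hc
  have : n ≤ M := hM (show σ n ∈ Set.Iic k from not_lt.1 hc)
  omega

/-- (C1) -/
lemma Good.eq_of_subset (hσ : Function.Injective σ) {C C' : Set E} (h : Good ends σ C)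
    (h' : Good ends σ C') (hC : C' ⊆ C) : C' = C := by
  obtain ⟨N, F, T, h⟩ := h
  obtain ⟨N', F', T', h'⟩ := h'
  obtain ⟨M₀, hM₀⟩ := eventually_gt_of_injective hσ (nu ends F)
  obtain ⟨M, hMN, hMN', hM⟩ : ∃ M, N ≤ M ∧ N' ≤ M ∧ M₀ ≤ M :=
    ⟨N + N' + M₀, by omega, by omega, by omega⟩
  obtain ⟨F₁, h₁⟩ := h.absorb hMN
  obtain ⟨F₁', h₁'⟩ := h'.absorb hMN'
  have hT : ∀ n, M ≤ n → T' n = T n := by
    intro n hn
    have hn' := h₁'.neck n hn
    have hsub : ∀ e ∈ T' n, e ∈ F ∨ ∃ m, N ≤ m ∧ e ∈ T m := fun e he =>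
      (h.mem e).1 (hC ((h₁'.mem e).2 (Or.inr ⟨n, hn, he⟩)))
    obtain ⟨e₀, he₀⟩ := hn'.nonempty
    rcases hsub e₀ he₀ with h1 | ⟨m, hm, h1⟩
    · have h2 : T' n ⊆ F := hn'.connected (· ∈ F) (by
        intro e he f hf v hv hv' heF
        rcases hsub f hf with h3 | ⟨m, hm, h3⟩
        · exact h3
        · exact absurd hv' (vdisj_iff.1 (h.disj m hm) e heF f h3 v hv)) he₀ h1
      have h3 := nu_mono (ends := ends) h2
      rw [h₁'.nu_neck n hn] at h3
      have := hM₀ n (by omega)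
      omega
    · have h2 : T' n ⊆ T m := hn'.connected (· ∈ T m) (by
        intro e he f hf v hv hv' heF
        rcases hsub f hf with h3 | ⟨m', hm', h3⟩
        · exact absurd hv (vdisj_iff.1 (h.disj m hm) f h3 e heF v hv')
        · by_cases hmm : m = m'
          · rw [hmm]; exact h3
          · exact absurd hv' (vdisj_iff.1 (h.disj' m m' hm hm' hmm) e heF f h3 v hv)) he₀ h1
      have h3 := (h.neck m hm).eq_of_subset hn' h2
      have h4 : σ n = σ m := by rw [← h₁'.nu_neck n hn, ← h.nu_neck m hm, h3]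
      rw [h3, hσ h4]
  have hF : F₁' ⊆ F₁ := by
    intro e he
    rcases (h₁.mem e).1 (hC ((h₁'.mem e).2 (Or.inl he))) with h1 | ⟨n, hn, h1⟩
    · exact h1
    · rw [← hT n hn] at h1
      exact absurd h1 (Finset.disjoint_left.1 (h₁'.disj n hn).disjoint he)
  have hF' : F₁' = F₁ := h₁.bridgeless.eq_of_subset hF (by rw [h₁.nu_eq, h₁'.nu_eq])
  ext e
  rw [h₁.mem, h₁'.mem, hF']
  apply or_congr_right
  apply exists_congr
  intro n
  apply and_congr_right
  intro hn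
  rw [hT n hn]

lemma GoodData.eventually_vdisj {C : Set E} {N : ℕ} {F : Finset E} {T : ℕ → Finset E}
    (h : GoodData ends σ C N F T) (Z : Finset E) : ∃ M, N ≤ M ∧ ∀ n, M ≤ n → VDisj ends Z (T n) := by
  classical
  have h1 : ∀ v : V, ∃ M, ∀ n, M ≤ n → N ≤ n → deg ends (T n) v = 0 := by
    intro v
    by_cases hv : ∃ n, N ≤ n ∧ deg ends (T n) v ≠ 0
    · obtain ⟨m, hm, hv⟩ := hv
      refine ⟨m + 1, fun n hn hN => ?_⟩
      exact (h.disj' m n hm hN (by omega) v).resolve_left hv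
    · push Not at hv
      exact ⟨0, fun n _ hN => hv n hN⟩
  choose g hg using h1
  let S : Finset V := Z.biUnion fun e => (ends e).toFinset
  refine ⟨N + S.sup g, by omega, fun n hn v => ?_⟩
  by_cases hv : v ∈ S
  · right
    have : g v ≤ S.sup g := Finset.le_sup hv
    exact hg v n (by omega) (by omega)
  · left
    rw [deg_eq_zero_iff]
    intro e he hv'
    exact hv (Finset.mem_biUnion.2 ⟨e, he, by simpa using hv'⟩)

/-- (C2) -/
lemma Good.elim (hσ : Function.Injective σ) {C₁ C₂ : Set E} (h₁ : Good ends σ C₁)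
    (h₂ : Good ends σ C₂) (hne : C₁ ≠ C₂) {e : E} (he₁ : e ∈ C₁) :
    ∃ C, Good ends σ C ∧ C ⊆ (C₁ ∪ C₂) \ {e} := by
  classical
  obtain ⟨f, hf₂, hf₁⟩ : ∃ f, f ∈ C₂ ∧ f ∉ C₁ := by
    by_contra hc
    push Not at hc
    exact hne (h₁.eq_of_subset hσ h₂ hc).symm
  obtain ⟨Z, hZ, hZe, hfZ, heZ⟩ : ∃ Z : Finset E, (∀ g ∈ Z, g ∈ C₁ ∪ C₂) ∧ IsEven ends Z ∧ f ∈ Z ∧
      e ∉ Z := by
    obtain ⟨Z₂, h1, h2, h3⟩ := h₂.exists_even hf₂
    by_cases he : e ∈ Z₂
    · obtain ⟨Z₁, h4, h5, h6⟩ := h₁.exists_even he₁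
      refine ⟨Z₁ ∆ Z₂, ?_, h5.symmDiff h2, ?_, ?_⟩
      · intro g hg
        rw [Finset.mem_symmDiff] at hg
        rcases hg with hg | hg
        · exact Or.inl (h4 g hg.1)
        · exact Or.inr (h1 g hg.1)
      · rw [Finset.mem_symmDiff]
        exact Or.inr ⟨h3, fun h => hf₁ (h4 f h)⟩
      · rw [Finset.mem_symmDiff]; tauto
    · exact ⟨Z₂, fun g hg => Or.inr (h1 g hg), h2, h3, he⟩
  obtain ⟨N, F, T, h⟩ := h₁
  obtain ⟨M, hM, hZM⟩ := h.eventually_vdisj (insert e Z)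
  obtain ⟨F₁, h'⟩ := h.absorb hM
  have heT : ∀ n, M ≤ n → e ∉ T n := fun n hn =>
    Finset.disjoint_left.1 (hZM n hn).disjoint (Finset.mem_insert_self _ _)
  have heF : e ∈ F₁ := by
    rcases (h'.mem e).1 he₁ with h1 | ⟨n, hn, h1⟩
    · exact h1
    · exact absurd h1 (heT n hn)
  obtain ⟨k, hk⟩ := nu_eq_pow (ends := ends) F₁
  have hW : 2 ^ k ≤ nu ends (F₁.erase e ∪ Z) := by
    obtain ⟨X, h1, h2, h3⟩ := h'.bridgeless e heF
    rw [← hk, nu_erase_of_mem h1 h2 h3, nu_erase_of_mem Finset.subset_union_right hZe hfZ]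
    apply Nat.mul_le_mul_left
    apply nu_mono
    rw [Finset.subset_erase]
    refine ⟨Finset.subset_union_left, fun hf => hf₁ ?_⟩
    exact (h'.mem f).2 (Or.inl (Finset.mem_of_mem_erase hf))
  obtain ⟨H, hH, hHb, hHn⟩ := exists_bridgeless_nu_eq _ k hW
  refine ⟨{g | g ∈ H ∨ ∃ n, M ≤ n ∧ g ∈ T n}, ⟨M, H, T, hHb, ?_, h'.neck, h'.nu_neck, ?_, h'.disj',
    fun g => Iff.rfl⟩, ?_⟩
  · rw [hHn, ← hk, h'.nu_eq]
  · intro n hn
    refine VDisj.mono (VDisj.union_left ((h'.disj n hn).mono (Finset.erase_subset _ _) subset_rfl)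
      ((hZM n hn).mono (Finset.subset_insert _ _) subset_rfl)) hH subset_rfl
  · rintro g (hg | ⟨n, hn, hg⟩)
    · rcases Finset.mem_union.1 (hH hg) with h1 | h1
      · exact ⟨Or.inl ((h'.mem g).2 (Or.inl (Finset.mem_of_mem_erase h1))),
          Finset.ne_of_mem_erase h1⟩
      · exact ⟨hZ g h1, fun h2 => heZ (by rw [Set.mem_singleton_iff] at h2; exact h2 ▸ h1)⟩
    · exact ⟨Or.inl ((h'.mem g).2 (Or.inr ⟨n, hn, hg⟩)),
        fun h2 => heT n hn (by rw [Set.mem_singleton_iff] at h2; exact h2 ▸ hg)⟩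

end Pool.Agent.MP_221c76_co
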