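import Pool.Agent.MP_221c76_co.Neck

open Finset

namespace Pool.Agent.MP_221c76_co

variable {V E V' E' : Type*}

/-- abstract topological embedding of `(V, E, ends)` into `(V', E', ends')` -/
structure Transfer (ends : E → Sym2 V) (ends' : E' → Sym2 V') where
  fib : E → Finset E'
  ι : V → V'
  inj : Function.Injective ι
  fib_nonempty : ∀ a, (fib a).Nonempty
  fib_disj : ∀ a b, a ≠ b → Disjoint (fib a) (fib b)
  deg_old : ∀ a v, deg ends' (fib a) (ι v) = inc (ends a) v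
  deg_new : ∀ w, w ∉ Set.range ι → (∀ a, deg ends' (fib a) w = 0) ∨
    ∃ a, deg ends' (fib a) w = 2 ∧ ∀ b, b ≠ a → deg ends' (fib b) w = 0
  sat : ∀ a, ∀ X ⊆ fib a, (∀ w, w ∉ Set.range ι → Even (deg ends' X w)) → X = ∅ ∨ X = fib a

namespace Transfer

variable {ends : E → Sym2 V} {ends' : E' → Sym2 V'} (t : Transfer ends ends')

/-- lift of a finite edge set -/
noncomputable def lift (X : Finset E) : Finset E' :=
  X.disjiUnion t.fib fun a _ b _ hab => t.fib_disj a b hab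

/-- lift of an edge set -/
def liftSet (D : Set E) : Set E' := {e | ∃ a ∈ D, e ∈ t.fib a}

lemma mem_lift {X : Finset E} {e : E'} : e ∈ t.lift X ↔ ∃ a ∈ X, e ∈ t.fib a := by
  simp [lift]

lemma fib_unique {a b : E} {e : E'} (ha : e ∈ t.fib a) (hb : e ∈ t.fib b) : a = b := by
  by_contra h
  exact Finset.disjoint_left.1 (t.fib_disj a b h) ha hb

lemma mem_lift_of_mem_fib {X : Finset E} {a : E} {e : E'} (he : e ∈ t.fib a) :
    e ∈ t.lift X ↔ a ∈ X := by
  rw [mem_lift]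
  constructor
  · rintro ⟨b, hb, hb'⟩
    rwa [t.fib_unique he hb']
  · exact fun h => ⟨a, h, he⟩

lemma mem_liftSet_of_mem_fib {D : Set E} {a : E} {e : E'} (he : e ∈ t.fib a) :
    e ∈ t.liftSet D ↔ a ∈ D := by
  constructor
  · rintro ⟨b, hb, hb'⟩
    rwa [t.fib_unique he hb']
  · exact fun h => ⟨a, h, he⟩

lemma lift_subset_lift {X Y : Finset E} : t.lift X ⊆ t.lift Y ↔ X ⊆ Y := by
  constructor
  · intro h a ha
    obtain ⟨e, he⟩ := t.fib_nonempty a
    exact (t.mem_lift_of_mem_fib he).1 (h ((t.mem_lift_of_mem_fib he).2 ha))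
  · intro h e he
    rw [mem_lift] at he ⊢
    obtain ⟨a, ha, he⟩ := he
    exact ⟨a, h ha, he⟩

lemma lift_injective : Function.Injective t.lift := fun _ _ h =>
  Finset.Subset.antisymm (t.lift_subset_lift.1 h.subset) (t.lift_subset_lift.1 h.symm.subset)

@[simp] lemma lift_empty : t.lift ∅ = ∅ := by
  ext e; simp [mem_lift]

lemma deg_lift (X : Finset E) (w : V') :
    deg ends' (t.lift X) w = ∑ a ∈ X, deg ends' (t.fib a) w := by
  unfold lift deg
  rw [Finset.sum_disjiUnion]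

lemma deg_lift_old (X : Finset E) (v : V) : deg ends' (t.lift X) (t.ι v) = deg ends X v := by
  rw [deg_lift]
  simp only [t.deg_old]
  rfl

lemma deg_lift_new {w : V'} (hw : w ∉ Set.range t.ι) :
    (∀ X, deg ends' (t.lift X) w = 0) ∨
      ∃ a, ∀ X, (a ∈ X → deg ends' (t.lift X) w = 2) ∧ (a ∉ X → deg ends' (t.lift X) w = 0) := by
  rcases t.deg_new w hw with h | ⟨a, ha, h⟩
  · left
    intro X
    rw [deg_lift]
    exact Finset.sum_eq_zero fun a _ => h a
  · right
    refine ⟨a, fun X => ⟨fun hX => ?_, fun hX => ?_⟩⟩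
    · rw [deg_lift, Finset.sum_eq_single_of_mem a hX fun b _ hb => h b hb, ha]
    · rw [deg_lift]
      exact Finset.sum_eq_zero fun b hb => h b (fun hba => hX (hba ▸ hb))

lemma deg_lift_new' {w : V'} (hw : w ∉ Set.range t.ι) (X : Finset E) :
    deg ends' (t.lift X) w = 0 ∨ deg ends' (t.lift X) w = 2 := by
  rcases t.deg_lift_new hw with h | ⟨a, h⟩
  · exact Or.inl (h X)
  · by_cases ha : a ∈ X
    · exact Or.inr ((h X).1 ha)
    · exact Or.inl ((h X).2 ha)

lemma isEven_lift {X : Finset E} : IsEven ends' (t.lift X) ↔ IsEven ends X := by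
  constructor
  · intro h v
    rw [← t.deg_lift_old]; exact h _
  · intro h w
    by_cases hw : w ∈ Set.range t.ι
    · obtain ⟨v, rfl⟩ := hw
      rw [t.deg_lift_old]; exact h v
    · rcases t.deg_lift_new' hw X with h1 | h1 <;> rw [h1] <;> decide

/-- even sets inside the image are saturated -/
lemma fib_subset_of_even {Y : Finset E'} (hY : IsEven ends' Y) (hcov : ∀ e ∈ Y, ∃ a, e ∈ t.fib a)
    {a : E} {e : E'} (he : e ∈ t.fib a) (heY : e ∈ Y) : t.fib a ⊆ Y := by
  classical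
  have h1 := t.sat a (Y ∩ t.fib a) Finset.inter_subset_right (by
    intro w hw
    rcases t.deg_new w hw with h | ⟨b, hb, h⟩
    · have := deg_mono (ends := ends') (Finset.inter_subset_right (s₁ := Y) (s₂ := t.fib a)) w
      have h0 : deg ends' (Y ∩ t.fib a) w = 0 := by rw [h a] at this; omega
      rw [h0]; exact Even.zero
    · by_cases hab : a = b
      · subst hab
        have h2 := deg_inter_add_sdiff (ends := ends') Y (t.fib a) w
        have h3 : deg ends' (Y \ t.fib a) w = 0 := by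
          rw [deg_eq_zero_iff]
          intro f hf
          rw [Finset.mem_sdiff] at hf
          obtain ⟨c, hc⟩ := hcov f hf.1
          exact deg_eq_zero_iff.1 (h c (fun hca => hf.2 (hca ▸ hc))) f hc
        rw [h3, add_zero] at h2
        rw [h2]; exact hY w
      · have := deg_mono (ends := ends') (Finset.inter_subset_right (s₁ := Y) (s₂ := t.fib a)) w
        have h0 : deg ends' (Y ∩ t.fib a) w = 0 := by rw [h a hab] at this; omega
        rw [h0]; exact Even.zero)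
  rcases h1 with h1 | h1
  · exact absurd h1 (Finset.ne_empty_of_mem (Finset.mem_inter.2 ⟨heY, he⟩))
  · exact Finset.inter_eq_right.1 h1

lemma exists_lift_eq {Y : Finset E'} (hY : Bridgeless ends' Y) (hcov : ∀ e ∈ Y, ∃ a, e ∈ t.fib a) :
    ∃ X, t.lift X = Y := by
  classical
  choose g hg using hcov
  refine ⟨Y.attach.image fun e => g e.1 e.2, ?_⟩
  ext e
  rw [mem_lift]
  constructor
  · rintro ⟨a, ha, he⟩
    obtain ⟨⟨f, hf⟩, -, rfl⟩ := Finset.mem_image.1 ha
    obtain ⟨Z, h1, h2, h3⟩ := hY f hf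
    exact h1 (t.fib_subset_of_even h2 (fun e he => ⟨_, hg e (h1 he)⟩) (hg f hf) h3 he)
  · intro he
    exact ⟨g e he, Finset.mem_image.2 ⟨⟨e, he⟩, Finset.mem_attach _ _, rfl⟩, hg e he⟩

lemma exists_lift_eq_of_even {Y : Finset E'} (hY : IsEven ends' Y) {X : Finset E}
    (hYX : Y ⊆ t.lift X) : ∃ Z, t.lift Z = Y :=
  t.exists_lift_eq (fun _ he => ⟨Y, subset_rfl, hY, he⟩) fun e he => by
    obtain ⟨a, -, ha⟩ := t.mem_lift.1 (hYX he)
    exact ⟨a, ha⟩

lemma nu_lift (X : Finset E) : nu ends' (t.lift X) = nu ends X := by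
  classical
  unfold nu
  symm
  apply Finset.card_nbij t.lift
  · intro Y hY
    simp only [Finset.coe_filter, Finset.mem_powerset, Set.mem_ofPred_eq] at hY ⊢
    exact ⟨t.lift_subset_lift.2 hY.1, t.isEven_lift.2 hY.2⟩
  · exact t.lift_injective.injOn
  · intro Y hY
    simp only [Finset.coe_filter, Finset.mem_powerset, Set.mem_ofPred_eq] at hY
    obtain ⟨Z, rfl⟩ := t.exists_lift_eq_of_even hY.2 hY.1
    refine ⟨Z, ?_, rfl⟩
    simp only [Finset.coe_filter, Finset.mem_powerset, Set.mem_ofPred_eq]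
    exact ⟨t.lift_subset_lift.1 hY.1, t.isEven_lift.1 hY.2⟩

lemma bridgeless_lift {X : Finset E} : Bridgeless ends' (t.lift X) ↔ Bridgeless ends X := by
  constructor
  · intro h a ha
    obtain ⟨e, he⟩ := t.fib_nonempty a
    obtain ⟨Y, h1, h2, h3⟩ := h e ((t.mem_lift_of_mem_fib he).2 ha)
    obtain ⟨Z, rfl⟩ := t.exists_lift_eq_of_even h2 h1
    exact ⟨Z, t.lift_subset_lift.1 h1, t.isEven_lift.1 h2, (t.mem_lift_of_mem_fib he).1 h3⟩
  · intro h e he
    obtain ⟨a, ha, he⟩ := t.mem_lift.1 he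
    obtain ⟨Z, h1, h2, h3⟩ := h a ha
    exact ⟨t.lift Z, t.lift_subset_lift.2 h1, t.isEven_lift.2 h2, (t.mem_lift_of_mem_fib he).2 h3⟩

lemma vdisj_lift {X Y : Finset E} : VDisj ends' (t.lift X) (t.lift Y) ↔ VDisj ends X Y := by
  constructor
  · intro h v
    rw [← t.deg_lift_old, ← t.deg_lift_old]; exact h _
  · intro h w
    by_cases hw : w ∈ Set.range t.ι
    · obtain ⟨v, rfl⟩ := hw
      rw [t.deg_lift_old, t.deg_lift_old]; exact h v
    · rcases t.deg_lift_new hw with h1 | ⟨a, h1⟩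
      · exact Or.inl (h1 X)
      · by_cases ha : a ∈ X
        · exact Or.inr ((h1 Y).2 (Finset.disjoint_left.1 h.disjoint ha))
        · exact Or.inl ((h1 X).2 ha)

lemma exists_old_of_deg {X : Finset E} {w : V'} (h : 2 < deg ends' (t.lift X) w) :
    ∃ v, t.ι v = w := by
  by_contra hc
  rcases t.deg_lift_new' hc X with h1 | h1 <;> omega

lemma neck_lift {T : Finset E} {𝓑 : Set (Finset E)}
    (h : Neck ends T 𝓑) : Neck ends' (t.lift T) (t.lift '' 𝓑) where
  nonempty := h.nonempty.image _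
  sub := by
    rintro _ ⟨B, hB, rfl⟩
    exact t.lift_subset_lift.2 (h.sub B hB)
  cover e he := by
    obtain ⟨a, ha, he⟩ := t.mem_lift.1 he
    obtain ⟨B, hB, haB⟩ := h.cover a ha
    exact ⟨_, ⟨B, hB, rfl⟩, (t.mem_lift_of_mem_fib he).2 haB⟩
  bead_even := by
    rintro _ ⟨B, hB, rfl⟩
    exact t.isEven_lift.2 (h.bead_even B hB)
  bead_min := by
    rintro _ ⟨B, hB, rfl⟩ Y hY hY'
    obtain ⟨Z, rfl⟩ := t.exists_lift_eq_of_even hY' hY
    rcases h.bead_min B hB Z (t.lift_subset_lift.1 hY) (t.isEven_lift.1 hY') with rfl | rfl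
    · exact Or.inl t.lift_empty
    · exact Or.inr rfl
  even := t.isEven_lift.2 h.even
  deg_le w := by
    by_contra hc
    obtain ⟨v, rfl⟩ := t.exists_old_of_deg (X := T) (w := w) (by omega)
    rw [t.deg_lift_old] at hc
    exact hc (h.deg_le v)
  junction := by
    rintro _ ⟨B, hB, rfl⟩
    obtain ⟨w₁, w₂, hne, hj⟩ := h.junction B hB
    refine ⟨t.ι w₁, t.ι w₂, fun h => hne (t.inj h), fun w => ?_⟩
    constructor
    · rintro ⟨h1, h2⟩
      obtain ⟨v, rfl⟩ := t.exists_old_of_deg (X := T) (w := w) (by omega)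
      rw [t.deg_lift_old] at h1 h2
      rcases (hj v).1 ⟨h1, h2⟩ with rfl | rfl
      · exact Or.inl rfl
      · exact Or.inr rfl
    · rintro (rfl | rfl)
      · rw [t.deg_lift_old, t.deg_lift_old]; exact (hj _).2 (Or.inl rfl)
      · rw [t.deg_lift_old, t.deg_lift_old]; exact (hj _).2 (Or.inr rfl)
  conn 𝓐 h𝓐 hne hcl := by
    have h1 := h.conn {B | B ∈ 𝓑 ∧ t.lift B ∈ 𝓐} (fun B hB => hB.1) (by
      obtain ⟨Y, hY⟩ := hne
      obtain ⟨B, hB, rfl⟩ := h𝓐 hY
      exact ⟨B, hB, hY⟩) (by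
      intro B hB B' hB' v h1 h2 h3
      refine ⟨hB', hcl _ hB.2 _ ⟨B', hB', rfl⟩ (t.ι v) ?_ ?_ ?_⟩ <;> rwa [t.deg_lift_old])
    rintro _ ⟨B, hB, rfl⟩
    exact (h1 hB).2

lemma neck_of_lift {T : Finset E} {𝓑 : Set (Finset E')}
    (h : Neck ends' (t.lift T) 𝓑) : Neck ends T (t.lift ⁻¹' 𝓑) := by
  have hex : ∀ Y ∈ 𝓑, ∃ B, t.lift B = Y := fun Y hY =>
    t.exists_lift_eq_of_even (h.bead_even Y hY) (h.sub Y hY)
  refine ⟨?_, ?_, ?_, ?_, ?_, t.isEven_lift.1 h.even, ?_, ?_, ?_⟩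
  · obtain ⟨Y, hY⟩ := h.nonempty
    obtain ⟨B, rfl⟩ := hex Y hY
    exact ⟨B, hY⟩
  · exact fun B hB => t.lift_subset_lift.1 (h.sub _ hB)
  · intro a ha
    obtain ⟨e, he⟩ := t.fib_nonempty a
    obtain ⟨Y, hY, heY⟩ := h.cover e ((t.mem_lift_of_mem_fib he).2 ha)
    obtain ⟨B, rfl⟩ := hex Y hY
    exact ⟨B, hY, (t.mem_lift_of_mem_fib he).1 heY⟩
  · exact fun B hB => t.isEven_lift.1 (h.bead_even _ hB)
  · intro B hB X hX hX'
    rcases h.bead_min _ hB (t.lift X) (t.lift_subset_lift.2 hX) (t.isEven_lift.2 hX') with h1 | h1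
    · left
      apply t.lift_injective
      rw [h1, t.lift_empty]
    · exact Or.inr (t.lift_injective h1)
  · intro v
    rw [← t.deg_lift_old]; exact h.deg_le _
  · intro B hB
    obtain ⟨w₁, w₂, hne, hj⟩ := h.junction _ hB
    obtain ⟨v₁, rfl⟩ := t.exists_old_of_deg (X := T) (w := w₁)
      (by rw [((hj w₁).2 (Or.inl rfl)).2]; omega)
    obtain ⟨v₂, rfl⟩ := t.exists_old_of_deg (X := T) (w := w₂)
      (by rw [((hj w₂).2 (Or.inr rfl)).2]; omega)
    refine ⟨v₁, v₂, fun h => hne (by rw [h]), fun v => ?_⟩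
    rw [← t.deg_lift_old, ← t.deg_lift_old, hj, t.inj.eq_iff, t.inj.eq_iff]
  · intro 𝓐 h𝓐 hne hcl
    have h1 := h.conn (t.lift '' 𝓐) (by
      rintro _ ⟨B, hB, rfl⟩
      exact h𝓐 hB) (hne.image _) (by
      rintro _ ⟨B, hB, rfl⟩ Y hY w h1 h2 h3
      obtain ⟨B', rfl⟩ := hex Y hY
      obtain ⟨v, rfl⟩ := t.exists_old_of_deg (X := T) (w := w) (by omega)
      rw [t.deg_lift_old] at h1 h2 h3
      exact ⟨B', hcl B hB B' hY v h1 h2 h3, rfl⟩)
    intro B hB
    obtain ⟨B', hB', h2⟩ := h1 hB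
    rwa [← t.lift_injective h2]

lemma isNeck_lift {T : Finset E} : IsNeck ends' (t.lift T) ↔ IsNeck ends T :=
  ⟨fun ⟨_, h⟩ => ⟨_, t.neck_of_lift h⟩, fun ⟨_, h⟩ => ⟨_, t.neck_lift h⟩⟩

lemma good_liftSet {σ : ℕ → ℕ} {D : Set E} : Good ends' σ (t.liftSet D) ↔ Good ends σ D := by
  classical
  constructor
  · rintro ⟨N, F, T, h⟩
    have hcov : ∀ e ∈ t.liftSet D, ∃ a, e ∈ t.fib a := fun e ⟨a, _, ha⟩ => ⟨a, ha⟩
    obtain ⟨F₀, rfl⟩ := t.exists_lift_eq h.bridgeless fun e he => hcov e ((h.mem e).2 (Or.inl he))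
    have h1 : ∀ n, ∃ X, N ≤ n → t.lift X = T n := by
      intro n
      by_cases hn : N ≤ n
      · obtain ⟨X, hX⟩ := t.exists_lift_eq (h.neck n hn).bridgeless
          fun e he => hcov e ((h.mem e).2 (Or.inr ⟨n, hn, he⟩))
        exact ⟨X, fun _ => hX⟩
      · exact ⟨∅, fun h => absurd h hn⟩
    choose T₀ hT₀ using h1
    refine ⟨N, F₀, T₀, t.bridgeless_lift.1 h.bridgeless, ?_, ?_, ?_, ?_, ?_, ?_⟩
    · rw [← t.nu_lift, h.nu_eq]
    · intro n hn
      rw [← t.isNeck_lift, hT₀ n hn]; exact h.neck n hn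
    · intro n hn
      rw [← t.nu_lift, hT₀ n hn]; exact h.nu_neck n hn
    · intro n hn
      rw [← t.vdisj_lift, hT₀ n hn]; exact h.disj n hn
    · intro m n hm hn hmn
      rw [← t.vdisj_lift, hT₀ n hn, hT₀ m hm]; exact h.disj' m n hm hn hmn
    · intro a
      obtain ⟨e, he⟩ := t.fib_nonempty a
      rw [← t.mem_liftSet_of_mem_fib he, h.mem, t.mem_lift_of_mem_fib he]
      apply or_congr_right
      apply exists_congr
      intro n
      apply and_congr_right
      intro hn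
      rw [← hT₀ n hn, t.mem_lift_of_mem_fib he]
  · rintro ⟨N, F, T, h⟩
    refine ⟨N, t.lift F, fun n => t.lift (T n), t.bridgeless_lift.2 h.bridgeless, ?_, ?_, ?_, ?_,
      ?_, ?_⟩
    · rw [t.nu_lift, h.nu_eq]
    · exact fun n hn => t.isNeck_lift.2 (h.neck n hn)
    · intro n hn
      rw [t.nu_lift]; exact h.nu_neck n hn
    · exact fun n hn => t.vdisj_lift.2 (h.disj n hn)
    · exact fun m n hm hn hmn => t.vdisj_lift.2 (h.disj' m n hm hn hmn)
    · intro e
      constructor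
      · rintro ⟨a, ha, he⟩
        rcases (h.mem a).1 ha with h1 | ⟨n, hn, h1⟩
        · exact Or.inl ((t.mem_lift_of_mem_fib he).2 h1)
        · exact Or.inr ⟨n, hn, (t.mem_lift_of_mem_fib he).2 h1⟩
      · rintro (h1 | ⟨n, hn, h1⟩)
        · obtain ⟨a, ha, he⟩ := t.mem_lift.1 h1
          exact ⟨a, (h.mem a).2 (Or.inl ha), he⟩
        · obtain ⟨a, ha, he⟩ := t.mem_lift.1 h1
          exact ⟨a, (h.mem a).2 (Or.inr ⟨n, hn, ha⟩), he⟩

/-- the transfer is onto -/
structure Full : Prop where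
  edge : ∀ e, ∃ a, e ∈ t.fib a
  vert : ∀ w, w ∉ Set.range t.ι → ∃ e, w ∈ ends' e

end Transfer

/-- no isolated vertex -/
def NoIso (ends : E → Sym2 V) : Prop := ∀ v, ∃ e, v ∈ ends e

/-- some vertex has degree at least `d` -/
def HasDeg (ends : E → Sym2 V) (d : ℕ) : Prop := ∃ v X, d ≤ deg ends X v

/-- the two graphs agree on all invariants used -/
structure Same (ends : E → Sym2 V) (ends' : E' → Sym2 V') : Prop where
  good : ∀ σ, Good ends σ Set.univ ↔ Good ends' σ Set.univ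
  noIso : NoIso ends ↔ NoIso ends'
  hasDeg : ∀ d, 3 ≤ d → (HasDeg ends d ↔ HasDeg ends' d)

lemma Same.refl (ends : E → Sym2 V) : Same ends ends :=
  ⟨fun _ => Iff.rfl, Iff.rfl, fun _ _ => Iff.rfl⟩

lemma Same.symm {ends : E → Sym2 V} {ends' : E' → Sym2 V'} (h : Same ends ends') :
    Same ends' ends :=
  ⟨fun σ => (h.good σ).symm, h.noIso.symm, fun d hd => (h.hasDeg d hd).symm⟩

lemma Same.trans {V'' E'' : Type*} {ends : E → Sym2 V} {ends' : E' → Sym2 V'}
    {ends'' : E'' → Sym2 V''} (h : Same ends ends') (h' : Same ends' ends'') : Same ends ends'' :=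
  ⟨fun σ => (h.good σ).trans (h'.good σ), h.noIso.trans h'.noIso,
    fun d hd => (h.hasDeg d hd).trans (h'.hasDeg d hd)⟩

lemma Transfer.same {ends : E → Sym2 V} {ends' : E' → Sym2 V'} (t : Transfer ends ends')
    (ht : t.Full) : Same ends ends' := by
  classical
  refine ⟨fun σ => ?_, ?_, fun d hd => ?_⟩
  · rw [← t.good_liftSet]
    have : t.liftSet Set.univ = Set.univ := by
      ext e
      simp only [Set.mem_univ, iff_true]
      obtain ⟨a, ha⟩ := ht.edge e
      exact ⟨a, trivial, ha⟩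
    rw [this]
  · constructor
    · intro h w
      by_cases hw : w ∈ Set.range t.ι
      · obtain ⟨v, rfl⟩ := hw
        obtain ⟨a, ha⟩ := h v
        have h1 : deg ends' (t.fib a) (t.ι v) ≠ 0 := by
          rw [t.deg_old, inc_ne_zero_iff]; exact ha
        obtain ⟨e, -, he⟩ := deg_ne_zero_iff.1 h1
        exact ⟨e, he⟩
      · exact ht.vert w hw
    · intro h v
      obtain ⟨e, he⟩ := h (t.ι v)
      obtain ⟨a, ha⟩ := ht.edge e
      have h1 : deg ends' (t.fib a) (t.ι v) ≠ 0 := deg_ne_zero_iff.2 ⟨e, ha, he⟩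
      rw [t.deg_old, inc_ne_zero_iff] at h1
      exact ⟨a, h1⟩
  · constructor
    · rintro ⟨v, X, h⟩
      exact ⟨t.ι v, t.lift X, by rwa [t.deg_lift_old]⟩
    · rintro ⟨w, Y, h⟩
      choose g hg using ht.edge
      have h1 : Y ⊆ t.lift (Y.image g) := fun e he =>
        (t.mem_lift_of_mem_fib (hg e)).2 (Finset.mem_image_of_mem g he)
      have h2 := deg_mono (ends := ends') h1 w
      obtain ⟨v, rfl⟩ := t.exists_old_of_deg (X := Y.image g) (w := w) (by omega)
      rw [t.deg_lift_old] at h2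
      exact ⟨v, _, h.trans h2⟩

/-- an embedding as a transfer -/
noncomputable def embTransfer {ends : E → Sym2 V} {ends' : E' → Sym2 V'} (φ : V → V') (ψ : E → E')
    (hφ : Function.Injective φ) (hψ : Function.Injective ψ)
    (h : ∀ e, ends' (ψ e) = (ends e).map φ) : Transfer ends ends' where
  fib a := {ψ a}
  ι := φ
  inj := hφ
  fib_nonempty a := Finset.singleton_nonempty _
  fib_disj a b hab := by simpa using fun h => hab (hψ h)
  deg_old a v := by rw [deg_singleton, h, inc_map hφ]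
  deg_new w hw := Or.inl fun a => by rw [deg_singleton, h, inc_map_of_notMem _ hw]
  sat a X hX _ := Finset.subset_singleton_iff.1 hX

lemma good_image {ends : E → Sym2 V} {ends' : E' → Sym2 V'} (φ : V → V') (ψ : E → E')
    (hφ : Function.Injective φ) (hψ : Function.Injective ψ)
    (h : ∀ e, ends' (ψ e) = (ends e).map φ) {σ : ℕ → ℕ} {D : Set E} :
    Good ends' σ (ψ '' D) ↔ Good ends σ D := by
  rw [← (embTransfer φ ψ hφ hψ h).good_liftSet]
  have : (embTransfer φ ψ hφ hψ h).liftSet D = ψ '' D := by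
    ext e
    simp [Transfer.liftSet, embTransfer, eq_comm]
  rw [this]

lemma same_of_equiv {ends : E → Sym2 V} {ends' : E' → Sym2 V'} (φ : V ≃ V') (ψ : E ≃ E')
    (h : ∀ e, ends' (ψ e) = (ends e).map φ) : Same ends ends' :=
  (embTransfer φ ψ φ.injective ψ.injective h).same
    ⟨fun e => ⟨ψ.symm e, by simp [embTransfer]⟩, fun w hw => absurd (φ.surjective w) hw⟩

end Pool.Agent.MP_221c76_co
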