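import Pool.Agent.MP_221c76_co.Defs
import Pool.Agent.MP_221c76_co.Transfer

open Finset

universe u

namespace Pool.Agent.MP_221c76_co

namespace MultiGraph

lemma Iso.same {G H : MultiGraph.{u}} (h : G.Iso H) : Same G.ends H.ends := by
  obtain ⟨φ, ψ, h⟩ := h
  exact same_of_equiv φ ψ h

section one
variable (G : MultiGraph.{u}) (e : G.E) (a b : G.V)

open Classical in
noncomputable def fibOne (f : G.E) : Finset ({f : G.E // f ≠ e} ⊕ Bool) :=
  if h : f = e then {.inr false, .inr true} else {.inl ⟨f, h⟩}

lemma fibOne_self : G.fibOne e e = Finset.cons (.inr false) {.inr true} (by simp) := by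
  ext x; simp [fibOne]

lemma fibOne_ne {f : G.E} (h : f ≠ e) : G.fibOne e f = {.inl ⟨f, h⟩} := by
  simp [fibOne, h]

lemma ends_inl (f : {f : G.E // f ≠ e}) :
    (G.subdivideEdge e a b).ends (.inl f) = (G.ends f.1).map some := rfl
lemma ends_false : (G.subdivideEdge e a b).ends (.inr false) = s(some a, none) := rfl
lemma ends_true : (G.subdivideEdge e a b).ends (.inr true) = s(none, some b) := rfl

lemma eq_none_of_notMem {α : Type*} {w : Option α} (hw : w ∉ Set.range (some : α → Option α)) :
    w = none := by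
  cases w with
  | none => rfl
  | some v => exact absurd ⟨v, rfl⟩ hw

lemma deg_fibOne_self (w : Option G.V) :
    deg (G.subdivideEdge e a b).ends (G.fibOne e e) w =
      inc s(some a, none) w + inc s(none, some b) w := by
  rw [fibOne_self]
  unfold deg
  erw [Finset.sum_cons, Finset.sum_singleton]
  rfl

noncomputable def transferOne (he : G.ends e = s(a, b)) :
    Transfer G.ends (G.subdivideEdge e a b).ends where
  fib := G.fibOne e
  ι := some
  inj := Option.some_injective _
  fib_nonempty f := by
    by_cases h : f = e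
    · subst h; rw [fibOne_self]; exact Finset.cons_nonempty _
    · rw [fibOne_ne _ _ h]; exact Finset.singleton_nonempty _
  fib_disj f g hfg := by
    by_cases h : f = e <;> by_cases h' : g = e
    · exact absurd (h.trans h'.symm) hfg
    · subst h; rw [fibOne_self, fibOne_ne _ _ h']
      erw [Finset.disjoint_singleton_right]; simp
    · subst h'; rw [fibOne_self, fibOne_ne _ _ h]
      erw [Finset.disjoint_singleton_left]; simp
    · rw [fibOne_ne _ _ h, fibOne_ne _ _ h']
      erw [Finset.disjoint_singleton]; simpa using hfg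
  deg_old f v := by
    by_cases h : f = e
    · subst h
      erw [deg_fibOne_self]
      rw [he, inc_mk, inc_mk, inc_mk]
      by_cases h1 : a = v <;> by_cases h2 : b = v <;> simp [h1, h2]
    · rw [fibOne_ne _ _ h]
      erw [deg_singleton]
      rw [ends_inl]
      exact inc_map (Option.some_injective _) _ _
  deg_new w hw := by
    right
    obtain rfl := eq_none_of_notMem hw
    refine ⟨e, ?_, fun f h => ?_⟩
    · erw [deg_fibOne_self]
      simp [inc_mk]
    · rw [fibOne_ne _ _ h]
      erw [deg_singleton]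
      rw [ends_inl]
      exact inc_map_of_notMem _ hw
  sat f X hX hev := by
    classical
    by_cases h : f = e
    · subst h
      have h1 := hev none (by rintro ⟨v, hv⟩; cases hv)
      rw [fibOne_self] at hX ⊢
      by_cases h2 : (Sum.inr false : {g : G.E // g ≠ f} ⊕ Bool) ∈ X <;>
        by_cases h3 : (Sum.inr true : {g : G.E // g ≠ f} ⊕ Bool) ∈ X
      · right
        apply Finset.Subset.antisymm hX
        intro x hx
        erw [Finset.mem_cons, Finset.mem_singleton] at hx
        rcases hx with rfl | rfl <;> assumption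
      · exfalso
        have : X = {Sum.inr false} := by
          ext x
          constructor
          · intro hx
            have h4 := hX hx
            erw [Finset.mem_cons, Finset.mem_singleton] at h4
            rcases h4 with rfl | rfl
            · exact Finset.mem_singleton_self _
            · exact absurd hx h3
          · intro hx
            rw [Finset.mem_singleton.1 hx]; exact h2
        rw [this] at h1
        erw [deg_singleton] at h1
        rw [ends_false] at h1
        erw [inc_mk] at h1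
        simp at h1
      · exfalso
        have : X = {Sum.inr true} := by
          ext x
          constructor
          · intro hx
            have h4 := hX hx
            erw [Finset.mem_cons, Finset.mem_singleton] at h4
            rcases h4 with rfl | rfl
            · exact absurd hx h2
            · exact Finset.mem_singleton_self _
          · intro hx
            rw [Finset.mem_singleton.1 hx]; exact h3
        rw [this] at h1
        erw [deg_singleton] at h1
        rw [ends_true] at h1
        erw [inc_mk] at h1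
        simp at h1
      · left
        apply Finset.eq_empty_of_forall_notMem
        intro x hx
        have h4 := hX hx
        erw [Finset.mem_cons, Finset.mem_singleton] at h4
        rcases h4 with rfl | rfl
        · exact h2 hx
        · exact h3 hx
    · rw [fibOne_ne _ _ h] at hX ⊢
      exact Finset.subset_singleton_iff.1 hX

lemma same_subdivideEdge (he : G.ends e = s(a, b)) : Same G.ends (G.subdivideEdge e a b).ends := by
  apply (G.transferOne e a b he).same
  constructor
  · rintro (f | x)
    · refine ⟨f.1, ?_⟩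
      show _ ∈ G.fibOne e f.1
      rw [fibOne_ne _ _ f.2]
      exact Finset.mem_singleton_self _
    · refine ⟨e, ?_⟩
      show _ ∈ G.fibOne e e
      rw [fibOne_self]
      cases x <;> simp
  · intro w hw
    obtain rfl := eq_none_of_notMem hw
    exact ⟨.inr false, by rw [ends_false]; exact Sym2.mem_mk_right _ _⟩

end one

lemma SubdivStep.same {G H : MultiGraph.{u}} (h : G.SubdivStep H) : Same G.ends H.ends := by
  obtain ⟨e, a, b, he, h⟩ := h
  exact (G.same_subdivideEdge e a b he).trans h.same

lemma FinSubdivision.same {G H : MultiGraph.{u}} (h : G.FinSubdivision H) : Same G.ends H.ends := by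
  obtain ⟨K, h1, h2⟩ := h
  refine h1.same.trans ?_
  clear h1
  induction h2 with
  | refl => exact Same.refl _
  | tail _ h ih => exact ih.trans h.same

lemma Homeomorphic.same {G H : MultiGraph.{u}} (h : G.Homeomorphic H) : Same G.ends H.ends := by
  obtain ⟨K, h1, h2⟩ := h
  exact h1.same.symm.trans h2.same

section all
variable (G : MultiGraph.{u}) (src tgt : G.E → G.V) (n : G.E → ℕ)

def fibAll (a : G.E) : Finset (Σ e : G.E, Fin (n e + 1)) :=
  (Finset.univ : Finset (Fin (n a + 1))).map ⟨Sigma.mk a, sigma_mk_injective⟩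

lemma mem_fibAll {a : G.E} {p : Σ e : G.E, Fin (n e + 1)} : p ∈ G.fibAll n a ↔ p.1 = a := by
  obtain ⟨e, i⟩ := p
  simp only [fibAll, Finset.mem_map, Finset.mem_univ, Function.Embedding.coeFn_mk, true_and]
  constructor
  · rintro ⟨j, hj⟩
    exact (congrArg Sigma.fst hj).symm
  · rintro rfl
    exact ⟨i, rfl⟩

def endsAll (p : Σ e : G.E, Fin (n e + 1)) : Sym2 (G.V ⊕ (Σ e : G.E, Fin (n e))) :=
  s(G.pathVertex src tgt n p.1 p.2, G.pathVertex src tgt n p.1 (p.2 + 1))

lemma deg_fibAll (a : G.E) (w : G.V ⊕ (Σ e : G.E, Fin (n e))) :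
    deg (G.endsAll src tgt n) (G.fibAll n a) w =
      ∑ i : Fin (n a + 1), inc (G.endsAll src tgt n ⟨a, i⟩) w := by
  unfold deg fibAll
  rw [Finset.sum_map]
  rfl

lemma pathVertex_zero (a : G.E) : G.pathVertex src tgt n a 0 = .inl (src a) := rfl

lemma pathVertex_succ_lt (a : G.E) {i : ℕ} (h : i < n a) :
    G.pathVertex src tgt n a (i + 1) = .inr ⟨a, ⟨i, h⟩⟩ := by
  simp [pathVertex, h]

lemma pathVertex_last (a : G.E) : G.pathVertex src tgt n a (n a + 1) = .inl (tgt a) := by
  simp [pathVertex]

lemma pathVertex_eq_inr {a b : G.E} {i : ℕ} {j : Fin (n b)} :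
    G.pathVertex src tgt n a i = .inr ⟨b, j⟩ ↔ a = b ∧ i = j + 1 := by
  cases i with
  | zero => simp [pathVertex]
  | succ i =>
    by_cases h : i < n a
    · rw [pathVertex_succ_lt _ _ _ _ _ h]
      constructor
      · intro h1
        have h2 := Sum.inr.inj h1
        have h3 : a = b := congrArg Sigma.fst h2
        subst h3
        have h4 := eq_of_heq (Sigma.mk.inj h2).2
        rw [← h4]
        exact ⟨rfl, rfl⟩
      · rintro ⟨rfl, h1⟩
        have : i = j := by omega
        subst this
        rfl
    · simp only [pathVertex, h, dite_false, reduceCtorEq, false_iff, not_and]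
      rintro rfl h1
      have := j.2
      omega

lemma exists_inr_of_notMem {α β : Type*} {w : α ⊕ β} (hw : w ∉ Set.range (Sum.inl : α → α ⊕ β)) :
    ∃ b, w = .inr b := by
  cases w with
  | inl v => exact absurd ⟨v, rfl⟩ hw
  | inr b => exact ⟨b, rfl⟩

open Classical in
lemma inc_all (a b : G.E) (i : Fin (n a + 1)) (j : Fin (n b)) :
    inc (G.endsAll src tgt n ⟨a, i⟩) (Sum.inr ⟨b, j⟩) =
      if a = b ∧ ((i : ℕ) = j + 1 ∨ (i : ℕ) = j) then 1 else 0 := by
  unfold endsAll
  rw [inc_mk]
  have h1 := G.pathVertex_eq_inr src tgt n (a := a) (b := b) (i := i) (j := j)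
  have h2 := G.pathVertex_eq_inr src tgt n (a := a) (b := b) (i := i + 1) (j := j)
  dsimp only
  by_cases h3 : G.pathVertex src tgt n a i = Sum.inr ⟨b, j⟩ <;>
    by_cases h4 : G.pathVertex src tgt n a (i + 1) = Sum.inr ⟨b, j⟩
  · rw [h1] at h3; rw [h2] at h4; omega
  · rw [if_pos h3, if_neg h4, if_pos ⟨(h1.1 h3).1, Or.inl (h1.1 h3).2⟩]
  · rw [if_neg h3, if_pos h4, if_pos ⟨(h2.1 h4).1, Or.inr (by have := (h2.1 h4).2; omega)⟩]
  · rw [if_neg h3, if_neg h4, if_neg]
    rintro ⟨h5, h6 | h6⟩
    · exact h3 (h1.2 ⟨h5, h6⟩)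
    · exact h4 (h2.2 ⟨h5, by omega⟩)

open Classical in
lemma deg_fibAll_old (a : G.E) (v : G.V) :
    deg (G.endsAll src tgt n) (G.fibAll n a) (Sum.inl v) = inc s(src a, tgt a) v := by
  rw [deg_fibAll]
  simp only [endsAll, inc_mk]
  rw [Finset.sum_add_distrib, Fin.sum_univ_succ, Fin.sum_univ_castSucc]
  have h1 : ∀ i : Fin (n a), G.pathVertex src tgt n a (i + 1) ≠ Sum.inl v := by
    intro i
    rw [pathVertex_succ_lt _ _ _ _ _ i.2]
    simp
  simp [h1, pathVertex_zero, pathVertex_last]

open Classical in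
lemma deg_sub_fibAll (a : G.E) (X : Finset (Σ e : G.E, Fin (n e + 1))) (hX : X ⊆ G.fibAll n a)
    (j : Fin (n a)) : deg (G.endsAll src tgt n) X (Sum.inr ⟨a, j⟩) =
      (if (⟨a, j.castSucc⟩ : Σ e : G.E, Fin (n e + 1)) ∈ X then 1 else 0) +
      (if (⟨a, j.succ⟩ : Σ e : G.E, Fin (n e + 1)) ∈ X then 1 else 0) := by
  unfold deg
  rw [← Finset.sum_ite_eq' X _ (fun _ => 1), ← Finset.sum_ite_eq' X _ (fun _ => 1),
    ← Finset.sum_add_distrib]
  apply Finset.sum_congr rfl
  rintro ⟨b, i⟩ hp
  obtain rfl : b = a := (G.mem_fibAll n).1 (hX hp)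
  rw [inc_all]
  simp only [true_and, Sigma.mk.injEq, heq_eq_eq, Fin.ext_iff, Fin.val_castSucc, Fin.val_succ]
  split_ifs <;> omega

noncomputable def transferAll (h : ∀ e, G.ends e = s(src e, tgt e)) :
    Transfer G.ends (G.endsAll src tgt n) where
  fib := G.fibAll n
  ι := Sum.inl
  inj := Sum.inl_injective
  fib_nonempty a := ⟨⟨a, 0⟩, (G.mem_fibAll n).2 rfl⟩
  fib_disj a b hab := by
    rw [Finset.disjoint_left]
    intro p h1 h2
    rw [mem_fibAll] at h1 h2
    exact hab (h1.symm.trans h2)
  deg_old a v := by rw [deg_fibAll_old, h]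
  deg_new w hw := by
    obtain ⟨⟨a, j⟩, rfl⟩ := exists_inr_of_notMem hw
    right
    refine ⟨a, ?_, fun b hb => ?_⟩
    · rw [deg_sub_fibAll _ _ _ _ _ _ subset_rfl]
      simp [mem_fibAll]
    · rw [deg_fibAll]
      apply Finset.sum_eq_zero
      intro i _
      rw [inc_all]
      simp [hb]
  sat a X hX hev := by
    have h1 : ∀ j : Fin (n a), (⟨a, j.castSucc⟩ : Σ e : G.E, Fin (n e + 1)) ∈ X ↔
        (⟨a, j.succ⟩ : Σ e : G.E, Fin (n e + 1)) ∈ X := by
      intro j
      have h2 := hev (Sum.inr ⟨a, j⟩) (by rintro ⟨v, hv⟩; cases hv)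
      rw [deg_sub_fibAll _ _ _ _ _ _ hX] at h2
      by_cases h3 : (⟨a, j.castSucc⟩ : Σ e : G.E, Fin (n e + 1)) ∈ X <;>
        by_cases h4 : (⟨a, j.succ⟩ : Σ e : G.E, Fin (n e + 1)) ∈ X <;> simp_all
    have h2 : ∀ i : Fin (n a + 1), (⟨a, i⟩ : Σ e : G.E, Fin (n e + 1)) ∈ X ↔
        (⟨a, 0⟩ : Σ e : G.E, Fin (n e + 1)) ∈ X := by
      intro i
      induction i using Fin.induction with
      | zero => rfl
      | succ j ih => rw [← h1, ih]
    by_cases h0 : (⟨a, 0⟩ : Σ e : G.E, Fin (n e + 1)) ∈ X
    · right
      apply Finset.Subset.antisymm hX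
      rintro ⟨b, i⟩ hp
      obtain rfl : b = a := (G.mem_fibAll n).1 hp
      exact (h2 i).2 h0
    · left
      apply Finset.eq_empty_of_forall_notMem
      rintro ⟨b, i⟩ hp
      obtain rfl : b = a := (G.mem_fibAll n).1 (hX hp)
      exact h0 ((h2 i).1 hp)

lemma same_subdivideAll (h : ∀ e, G.ends e = s(src e, tgt e)) :
    Same G.ends (G.subdivideAll src tgt n).ends := by
  apply (G.transferAll src tgt n h).same
  constructor
  · exact fun p => ⟨p.1, (G.mem_fibAll n).2 rfl⟩
  · intro w hw
    obtain ⟨⟨a, j⟩, rfl⟩ := exists_inr_of_notMem hw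
    refine ⟨⟨a, j.castSucc⟩, ?_⟩
    rw [← inc_ne_zero_iff, inc_all]
    simp

end all

lemma Subdivision.same {G H : MultiGraph.{u}} (h : G.Subdivision H) : Same G.ends H.ends := by
  obtain ⟨src, tgt, n, h1, h2⟩ := h
  exact (G.same_subdivideAll src tgt n h1).trans h2.same

lemma WidelyHomeomorphic.same {G H : MultiGraph.{u}} (h : G.WidelyHomeomorphic H) :
    Same G.ends H.ends := by
  obtain ⟨K, h1, h2⟩ := h
  exact h1.same.symm.trans h2.same

/-- the subgraph spanned by an edge set -/
def span (G : MultiGraph.{u}) (C : Set G.E) : G.Subgraph where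
  verts := {v | ∃ e ∈ C, v ∈ G.ends e}
  edges := C
  ends_mem e he _ hv := ⟨e, he, hv⟩

lemma Subgraph.good_iff {G : MultiGraph.{u}} (S : G.Subgraph) {σ : ℕ → ℕ} :
    Good S.toGraph.ends σ Set.univ ↔ Good G.ends σ S.edges := by
  have h := good_image (ends := S.toGraph.ends) (ends' := G.ends) Subtype.val Subtype.val
    Subtype.val_injective Subtype.val_injective
    (fun e => (Sym2.attachWith_map_subtypeVal _).symm) (σ := σ) (D := Set.univ)
  rw [← h]
  have : (Subtype.val '' (Set.univ : Set S.edges)) = S.edges := by simp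
  erw [this]

lemma span_noIso (G : MultiGraph.{u}) (C : Set G.E) : NoIso (G.span C).toGraph.ends := by
  rintro ⟨v, e, he, hv⟩
  refine ⟨⟨e, he⟩, ?_⟩
  have h1 : ((G.span C).toGraph.ends ⟨e, he⟩).map Subtype.val = G.ends e :=
    Sym2.attachWith_map_subtypeVal _
  rw [← h1, Sym2.mem_map] at hv
  obtain ⟨a, ha, rfl⟩ := hv
  exact ha

end MultiGraph

end Pool.Agent.MP_221c76_co
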